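import Mathlib

set_option autoImplicit false

namespace Pool.Agent.Helper971.Sq

open Set Filter Topology

/-- the Cantor space -/
abbrev Z := ℕ → Bool

/-- almost inclusion -/
def AI (A B : Set ℕ) : Prop := (A \ B).Finite

/-- the set of coordinates changed by the modification attached to `c`: the flag `0` and the
even numbers `2 m + 2`, `m ∈ c` -/
def ec (c : Set ℕ) : Set ℕ := {n | n = 0 ∨ ∃ m, m ∈ c ∧ n = 2 * m + 2}

/-- the point `x` with its values on `ec c` changed -/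
noncomputable def sh (c : Set ℕ) (x : Z) : Z := by
  classical
  exact fun n => if n ∈ ec c then !(x n) else x n

/-- the trace on `B` of the set coded by `z` -/
def tr (z : Z) (B : Set ℕ) : Set ℕ := {n | z n = true ∧ n ∈ B}

/-- the symmetric difference of a finite set and a set -/
def sd (u : Finset ℕ) (c : Set ℕ) : Set ℕ := {n | (n ∈ u ∧ n ∉ c) ∨ (n ∉ u ∧ n ∈ c)}

/-- the indices in `S` of the sets containing both points -/
def cut (W : ℕ → Set Z) (S : Set ℕ) (x : Z) (c : Set ℕ) : Set ℕ :=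
  {m | m ∈ S ∧ x ∈ W m ∧ sh c x ∈ W m}

/-- the kill relation -/
def K (W : ℕ → Set Z) : ℕ → Set ℕ → Set ℕ → Prop
  | 0, S, _ => S.Finite
  | k + 1, S, B => ∀ B1 : Set ℕ, B1 ⊆ B → B1.Infinite → ∃ B2 : Set ℕ, B2 ⊆ B1 ∧ B2.Infinite ∧
      ∃ u : Finset ℕ, ¬ IsMeagre {p : Z × Z | ∃ c : Set ℕ, c ⊆ tr p.2 B2 ∧ c.Infinite ∧
        K W k (cut W S p.1 (sd u (tr p.2 B2))) c}

/-- robustness -/
def R (W : ℕ → Set Z) (k : ℕ) (S B : Set ℕ) : Prop :=
  ∀ B' : Set ℕ, B' ⊆ B → B'.Infinite → ¬ K W k S B'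

/-- good sets -/
def Good (W : ℕ → Set Z) (k : ℕ) (S B : Set ℕ) : Prop :=
  ∀ B2 : Set ℕ, B2 ⊆ B → B2.Infinite → ∀ u : Finset ℕ,
    IsMeagre {p : Z × Z | ¬ R W k (cut W S p.1 (sd u (tr p.2 B2))) (tr p.2 B2)}

/-- the indices of the sets containing `H` -/
def E (W : ℕ → Set Z) (H : Set Z) : Set ℕ := {m | ∀ h ∈ H, h ∈ W m}

/-- the indices of the sets containing `x` -/
def F (W : ℕ → Set Z) (x : Z) : Set ℕ := {m | x ∈ W m}

/-- the ideal of killed sets -/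
def J (W : ℕ → Set Z) (En : ℕ → Set ℕ) (B Y : Set ℕ) : Prop := ∃ n k, K W k (En n ∩ Y) B

/-- the set of indices `m` such that some `x ∈ U` and its finite modification lie in `W m` -/
def Dn (W : ℕ → Set Z) (U : Set Z) (u : Finset ℕ) : Set ℕ :=
  {m | ∃ x ∈ U, x ∈ W m ∧ sh (u : Set ℕ) x ∈ W m}

/-- the two points attached to each pair -/
def pts (X : Set (Z × Set ℕ)) : Set Z := {w | ∃ p ∈ X, w = p.1 ∨ w = sh p.2 p.1}

/-- the tags (odd coordinates) differ -/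
def Tag (x y : Z) : Prop := ∃ n, x (2 * n + 1) ≠ y (2 * n + 1)

/-- valid states -/
structure Valid (X : Set (Z × Set ℕ)) (B : Set ℕ) : Prop where
  cnt : X.Countable
  inf : B.Infinite
  below : ∀ p ∈ X, AI B p.2
  lin : ∀ p ∈ X, ∀ q ∈ X, AI p.2 q.2 ∨ AI q.2 p.2
  tag : ∀ p ∈ X, ∀ q ∈ X, p ≠ q → Tag p.1 q.1

/-- the subfamily of `W` indexed by `Y` is robust at the state `(X, B)` -/
def Rob (W : ℕ → Set Z) (Y : Set ℕ) (X : Set (Z × Set ℕ)) (B : Set ℕ) : Prop :=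
  ∀ H : Set Z, H ⊆ pts X → H.Finite → ∀ k, R W k (E W H ∩ Y) B

/-- `W` is not an omega-cover of the points of `X` -/
def Dead (W : ℕ → Set Z) (X : Set (Z × Set ℕ)) : Prop :=
  ∃ H : Set Z, H ⊆ pts X ∧ H.Finite ∧ (E W H).Finite

/-- the task `W` is settled at the state `(X, B)`, by the splitting `Y` -/
def OK (W : ℕ → Set Z) (Y : Set ℕ) (X : Set (Z × Set ℕ)) (B : Set ℕ) : Prop :=
  Dead W X ∨ (Rob W Y X B ∧ Rob W Yᶜ X B)

/-- data of a stage: the pairs, the lower bound, the splitting -/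
abbrev D := Set (Z × Set ℕ) × Set ℕ × Set ℕ

/-- the requirement at stage `i` -/
def Req {I : Type} [LinearOrder I] (C : I → Set ℕ) (O : I → ℕ → Set Z) (U : I → Set Z) (i : I)
    (prev : (j : I) → j < i → D) (d : D) : Prop :=
  Valid d.1 d.2.1 ∧
  (∀ (j : I) (h : j < i), (prev j h).1 ⊆ d.1 ∧ AI d.2.1 (prev j h).2.1) ∧
  OK (O i) d.2.2 d.1 d.2.1 ∧
  (∀ (j : I) (h : j < i), OK (O j) (prev j h).2.2 d.1 d.2.1) ∧
  ∃ p ∈ d.1, p.1 ∈ U i ∧ p.2.Infinite ∧ (p.2 ⊆ C i ∨ p.2 ⊆ (C i)ᶜ)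

/-! Covers, as in `Pool.Agent.Helper185.Sel`. -/

/-- `U` is a (nontrivial) cover of `X`: its union is `X`, and `X` is not a member. -/
def IsCov {X : Type*} (U : Set (Set X)) : Prop := ⋃₀ U = univ ∧ univ ∉ U

/-- The families of open subsets of `X`. -/
def OpenFam (X : Type*) [TopologicalSpace X] : Set (Set (Set X)) :=
  {U | ∀ u ∈ U, IsOpen u}

/-- The tau-covers of `X` in the class `G`. -/
def TauOf {X : Type*} (G : Set (Set (Set X))) : Set (Set (Set X)) :=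
  {U | U ∈ G ∧ IsCov U ∧ (∀ x, {u | u ∈ U ∧ x ∈ u}.Infinite) ∧
    ∀ x y, {u | u ∈ U ∧ x ∈ u ∧ y ∉ u}.Finite ∨ {u | u ∈ U ∧ y ∈ u ∧ x ∉ u}.Finite}

/-- The omega-covers of `X` in the class `G`. -/
def OmegaOf {X : Type*} (G : Set (Set (Set X))) : Set (Set (Set X)) :=
  {U | U ∈ G ∧ IsCov U ∧ ∀ F : Set X, F.Finite → ∃ u ∈ U, F ⊆ u}

/-- `Split(A, B)`. -/
def SplitP {X : Type*} (A B : Set (Set (Set X))) : Prop :=
  ∀ U ∈ A, ∃ V W : Set (Set X), V ∪ W = U ∧ Disjoint V W ∧ (∃ V' ⊆ V, V' ∈ B) ∧ ∃ W' ⊆ W, W' ∈ B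

end Pool.Agent.Helper971.Sq
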