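import Pool.Agent.Helper971.Sq.Defs

set_option autoImplicit false

namespace Pool.Agent.Helper971.Sq
open Set Filter Topology


theorem K_hered (W : ℕ → Set Z) (k : ℕ) {S B B' : Set ℕ} (h : K W k S B) (hB : AI B' B) :
    K W k S B' := by
  cases k with
  | zero => exact h
  | succ k =>
    intro B1 hB1 hinf
    have h1 : (B1 ∩ B).Infinite := by
      intro hfin
      apply hinf
      have hsub : B1 ⊆ (B1 ∩ B) ∪ (B' \ B) := by
        intro x hx
        by_cases hxB : x ∈ B
        · exact Or.inl ⟨hx, hxB⟩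
        · exact Or.inr ⟨hB1 hx, hxB⟩
      exact (hfin.union hB).subset hsub
    obtain ⟨B2, h2, h3, h4⟩ := h (B1 ∩ B) inter_subset_right h1
    exact ⟨B2, h2.trans inter_subset_left, h3, h4⟩

end Pool.Agent.Helper971.Sq
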