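import Pool.Agent.Helper971.Sq.Defs
import Pool.Agent.Helper971.Sq.P_K_hered

set_option autoImplicit false

namespace Pool.Agent.Helper971.Sq

open Set Filter Topology

theorem R_hered (W : ℕ → Set Z) (k : ℕ) {S B B' : Set ℕ} (h : R W k S B) (hB : AI B' B) :
    R W k S B' := by
  intro B1 hB1 hi hK
  have hfin : (B1 \ B).Finite := by
    have : (B' \ B).Finite := hB
    exact this.subset (fun x hx => ⟨hB1 hx.1, hx.2⟩)
  have hinf : (B1 ∩ B).Infinite := by
    intro hf
    apply hi
    have : B1 = (B1 ∩ B) ∪ (B1 \ B) := by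
      ext x; by_cases hx : x ∈ B <;> simp [hx]
    rw [this]
    exact hf.union hfin
  have hsub : AI (B1 ∩ B) B1 := by
    unfold AI
    have : (B1 ∩ B) \ B1 = ∅ := by
      ext x; simp; tauto
    rw [this]; exact Set.finite_empty
  exact h (B1 ∩ B) Set.inter_subset_right hinf (K_hered W k hK hsub)

end Pool.Agent.Helper971.Sq
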