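import Pool.Agent.Helper971.Sq.Defs
import Pool.Agent.Helper971.Sq.P_R_hered

set_option autoImplicit false

namespace Pool.Agent.Helper971.Sq
open Set Filter Topology


theorem Good_hered (W : ℕ → Set Z) (k : ℕ) {S B B' : Set ℕ} (h : Good W k S B) (hB : AI B' B) :
    Good W k S B' := by
  classical
  intro B2 hB2 hinf u
  have hg : (B2 \ B).Finite := hB.subset (diff_subset_diff_left hB2)
  have h4 : (B2 ∩ B).Infinite := by
    intro hf
    apply hinf
    have := hf.union hg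
    rwa [inter_union_diff] at this
  refine IsMeagre.mono (s := ⋃ v : Finset ℕ, {p : Z × Z | ¬ R W k
    (cut W S p.1 (sd (symmDiff u v) (tr p.2 (B2 ∩ B)))) (tr p.2 (B2 ∩ B))}) ?_
    (isMeagre_iUnion fun v => h (B2 ∩ B) inter_subset_right h4 (symmDiff u v))
  rintro ⟨x, z⟩ hp
  have hvf : (tr z (B2 \ B)).Finite := hg.subset fun n hn => hn.2
  rw [mem_iUnion]
  refine ⟨hvf.toFinset, ?_⟩
  intro hR
  apply hp
  have hAI : AI (tr z B2) (tr z (B2 ∩ B)) := by
    refine hg.subset ?_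
    rintro n ⟨hn1, hn2⟩
    exact ⟨hn1.2, fun hnB => hn2 ⟨hn1.1, hn1.2, hnB⟩⟩
  have hsd : sd (symmDiff u hvf.toFinset) (tr z (B2 ∩ B)) = sd u (tr z B2) := by
    ext n
    simp only [sd, mem_setOf_eq, Finset.mem_symmDiff, Set.Finite.mem_toFinset, tr, mem_diff,
      mem_inter_iff]
    by_cases h1 : n ∈ u <;> by_cases h2 : z n = true <;> by_cases h3 : n ∈ B2 <;>
      by_cases h5 : n ∈ B <;> simp [h1, h2, h3, h5]
  have := R_hered W k hR hAI
  simp only at this ⊢
  rwa [hsd] at this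

end Pool.Agent.Helper971.Sq
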