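import Pool.Agent.Helper971.Sq.Defs

set_option autoImplicit false

namespace Pool.Agent.Helper971.Sq
open Set Filter Topology


theorem K_mono (W : ℕ → Set Z) (k : ℕ) {S S' B : Set ℕ} (h : K W k S B) (hs : S' ⊆ S) :
    K W k S' B := by
  induction k generalizing S S' B with
  | zero => exact Set.Finite.subset h hs
  | succ k ih =>
    intro B1 hB1 hinf
    obtain ⟨B2, h2, h2i, u, hu⟩ := h B1 hB1 hinf
    refine ⟨B2, h2, h2i, u, fun hm => hu (hm.mono ?_)⟩
    rintro p ⟨c, hc, hci, hK⟩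
    refine ⟨c, hc, hci, ih hK ?_⟩
    rintro m ⟨hm1, hm2⟩
    exact ⟨hs hm1, hm2⟩

end Pool.Agent.Helper971.Sq
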