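import Pool.Agent.Helper971.Sq.Defs
import Pool.Agent.Helper971.Sq.P_K_mono
import Pool.Agent.Helper971.Sq.P_K_hered

set_option autoImplicit false

namespace Pool.Agent.Helper971.Sq
open Set Filter Topology


theorem J_hered (W : ℕ → Set Z) {En : ℕ → Set ℕ} {B B' Y Y' : Set ℕ}
    (h : J W En B Y) (hB : AI B' B) (hY : Y' ⊆ Y) : J W En B' Y' := by
  obtain ⟨n, k, h1⟩ := h
  exact ⟨n, k, K_mono W k (K_hered W k h1 hB) (Set.inter_subset_inter_right _ hY)⟩

end Pool.Agent.Helper971.Sq
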