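import Pool.Agent.Helper971.Sq.Defs
import Pool.Agent.Helper971.Sq.P_K_mono
import Pool.Agent.Helper971.Sq.P_K_hered

set_option autoImplicit false

namespace Pool.Agent.Helper971.Sq
open Set Filter Topology


theorem K_union_cut (W : ℕ → Set Z) (S T : Set ℕ) (x : Z) (c : Set ℕ) :
    cut W (S ∪ T) x c = cut W S x c ∪ cut W T x c := by
  ext m
  constructor
  · rintro ⟨h1 | h1, h2⟩
    · exact Or.inl ⟨h1, h2⟩
    · exact Or.inr ⟨h1, h2⟩
  · rintro (⟨h1, h2⟩ | ⟨h1, h2⟩)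
    · exact ⟨Or.inl h1, h2⟩
    · exact ⟨Or.inr h1, h2⟩

theorem K_union_fin (W : ℕ → Set Z) (l : ℕ) : ∀ {S T B : Set ℕ}, S.Finite → K W l T B →
    K W l (S ∪ T) B := by
  induction l with
  | zero => intro S T B hS h; exact hS.union h
  | succ l ih =>
    intro S T B hS h B1 hB1 hB1i
    obtain ⟨B2, hB2, hB2i, u, hu⟩ := h B1 hB1 hB1i
    refine ⟨B2, hB2, hB2i, u, fun hm => hu (hm.mono ?_)⟩
    rintro p ⟨c, hc, hci, hK⟩
    refine ⟨c, hc, hci, ?_⟩
    rw [K_union_cut]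
    exact ih (hS.subset fun m hm => hm.1) hK

theorem K_union_aux (W : ℕ → Set Z) (l k : ℕ) : ∀ {S T B : Set ℕ}, K W k S B → K W l T B →
    K W (k + l) (S ∪ T) B := by
  induction k with
  | zero =>
    intro S T B h h'
    rw [Nat.zero_add]
    exact K_union_fin W l h h'
  | succ k ih =>
    intro S T B h h'
    have e : k + 1 + l = (k + l) + 1 := by omega
    rw [e]
    intro B1 hB1 hB1i
    obtain ⟨B2, hB2, hB2i, u, hu⟩ := h B1 hB1 hB1i
    refine ⟨B2, hB2, hB2i, u, fun hm => hu (hm.mono ?_)⟩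
    rintro p ⟨c, hc, hci, hK⟩
    refine ⟨c, hc, hci, ?_⟩
    rw [K_union_cut]
    refine ih hK ?_
    have h1 : K W l (cut W T p.1 (sd u (tr p.2 B2))) B := K_mono W l h' fun m hm => hm.1
    refine K_hered W l h1 ?_
    have h2 : c ⊆ B := fun x hx => hB1 (hB2 (hc hx).2)
    have h3 : c \ B = ∅ := Set.diff_eq_empty.2 h2
    show (c \ B).Finite
    rw [h3]
    exact Set.finite_empty

theorem K_union (W : ℕ → Set Z) (k l : ℕ) {S T B : Set ℕ} (h : K W k S B) (h' : K W l T B) :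
    K W (k + l) (S ∪ T) B :=
  K_union_aux W l k h h'

end Pool.Agent.Helper971.Sq
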