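import Pool.Agent.Helper971.Sq.Defs
import Pool.Agent.Helper971.Sq.P_K_mono
import Pool.Agent.Helper971.Sq.P_K_union

set_option autoImplicit false

namespace Pool.Agent.Helper971.Sq
open Set Filter Topology


theorem J_union (W : ℕ → Set Z) {En : ℕ → Set ℕ} (hE : Antitone En) {B Y Y' : Set ℕ}
    (h : J W En B Y) (h' : J W En B Y') : J W En B (Y ∪ Y') := by
  obtain ⟨n, k, hk⟩ := h
  obtain ⟨n', k', hk'⟩ := h'
  refine ⟨max n n', k + k', ?_⟩
  have h1 : K W k (En (max n n') ∩ Y) B :=
    K_mono W k hk (Set.inter_subset_inter_left Y (hE (le_max_left n n')))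
  have h2 : K W k' (En (max n n') ∩ Y') B :=
    K_mono W k' hk' (Set.inter_subset_inter_left Y' (hE (le_max_right n n')))
  have h3 := K_union W k k' h1 h2
  rwa [← Set.inter_union_distrib_left] at h3

end Pool.Agent.Helper971.Sq
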