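import Pool.Agent.Helper971.Sq.Defs
import Pool.Agent.Helper971.Sq.P_K_mono

set_option autoImplicit false

namespace Pool.Agent.Helper971.Sq

open Set Filter Topology

theorem R_mono (W : ℕ → Set Z) (k : ℕ) {S S' B : Set ℕ} (h : R W k S B) (hs : S ⊆ S') :
    R W k S' B := by
  intro B' hB' hi hK
  exact h B' hB' hi (K_mono W k hK hs)

end Pool.Agent.Helper971.Sq
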