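import Pool.Agent.Helper971.Sq.Defs

set_option autoImplicit false

namespace Pool.Agent.Helper971.Sq
open Set Filter Topology


theorem diag (P : ℕ → Set ℕ → Prop) {B : Set ℕ} (hB : B.Infinite)
    (h1 : ∀ n B' B'', P n B' → AI B'' B' → P n B'')
    (h2 : ∀ n B', B' ⊆ B → B'.Infinite → ∃ B'', B'' ⊆ B' ∧ B''.Infinite ∧ P n B'') :
    ∃ Bs : Set ℕ, Bs ⊆ B ∧ Bs.Infinite ∧ ∀ n, P n Bs := by
  have hstep : ∀ (n : ℕ) (S : {S : Set ℕ // S ⊆ B ∧ S.Infinite}),
      ∃ S' : {S : Set ℕ // S ⊆ B ∧ S.Infinite}, S'.1 ⊆ S.1 ∧ P n S'.1 := by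
    rintro n ⟨S, hS1, hS2⟩
    obtain ⟨S', h1', h2', h3'⟩ := h2 n S hS1 hS2
    exact ⟨⟨S', h1'.trans hS1, h2'⟩, h1', h3'⟩
  choose st hst1 hst2 using hstep
  let C : ℕ → {S : Set ℕ // S ⊆ B ∧ S.Infinite} := fun n =>
    Nat.rec (st 0 ⟨B, subset_rfl, hB⟩) (fun n S => st (n + 1) S) n
  have hCs : ∀ n, C (n + 1) = st (n + 1) (C n) := fun n => rfl
  have hP : ∀ n, P n (C n).1 := by
    intro n
    cases n with
    | zero => exact hst2 0 _
    | succ n => exact hst2 (n + 1) _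
  have hanti : Antitone (fun n => (C n).1) := by
    apply antitone_nat_of_succ_le
    intro n
    show (C (n + 1)).1 ⊆ (C n).1
    rw [hCs]
    exact hst1 _ _
  choose g hg1 hg2 using fun (n a : ℕ) => (C n).2.2.exists_gt a
  let b : ℕ → ℕ := fun n => Nat.rec (g 0 0) (fun n a => g (n + 1) a) n
  have hbs : ∀ n, b (n + 1) = g (n + 1) (b n) := fun n => rfl
  have hbC : ∀ n, b n ∈ (C n).1 := by
    intro n
    cases n with
    | zero => exact hg1 0 0
    | succ n => exact hg1 (n + 1) (b n)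
  have hbm : StrictMono b := by
    apply strictMono_nat_of_lt_succ
    intro n
    rw [hbs]
    exact hg2 (n + 1) (b n)
  refine ⟨Set.range b, ?_, Set.infinite_range_of_injective hbm.injective, ?_⟩
  · rintro _ ⟨n, rfl⟩
    exact (C n).2.1 (hbC n)
  · intro n
    apply h1 n (C n).1 _ (hP n)
    unfold AI
    apply ((Set.finite_Iio n).image b).subset
    rintro _ ⟨⟨i, rfl⟩, hi⟩
    refine ⟨i, ?_, rfl⟩
    rw [Set.mem_Iio]
    by_contra hcon
    push Not at hcon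
    exact hi (hanti hcon (hbC i))

end Pool.Agent.Helper971.Sq
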