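import Pool.Agent.Helper971.Sq.Defs

set_option autoImplicit false

namespace Pool.Agent.Helper971.Sq
open Set Filter Topology


theorem good_of_R (W : ℕ → Set Z) (k : ℕ) {S B B' : Set ℕ} (h : R W (k + 1) S B) (hB : B' ⊆ B)
    (hi : B'.Infinite) : ∃ B'' : Set ℕ, B'' ⊆ B' ∧ B''.Infinite ∧ Good W k S B'' := by
  by_contra hcon
  refine h B' hB hi fun B1 hB1 hi1 => ?_
  by_contra hcon2
  refine hcon ⟨B1, hB1, hi1, fun B2 hB2 hi2 u => ?_⟩
  by_contra hcon3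
  refine hcon2 ⟨B2, hB2, hi2, u, ?_⟩
  have : {p : Z × Z | ∃ c : Set ℕ, c ⊆ tr p.2 B2 ∧ c.Infinite ∧
        K W k (cut W S p.1 (sd u (tr p.2 B2))) c} =
      {p : Z × Z | ¬ R W k (cut W S p.1 (sd u (tr p.2 B2))) (tr p.2 B2)} := by
    ext p
    simp only [mem_ofPred_eq, R]
    constructor
    · rintro ⟨c, h1, h2, h3⟩ h4
      exact h4 c h1 h2 h3
    · intro h4
      by_contra h5
      exact h4 fun c h1 h2 h3 => h5 ⟨c, h1, h2, h3⟩
  rw [this]
  exact hcon3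

end Pool.Agent.Helper971.Sq
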