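import Pool.Agent.Helper971.Sq.Defs

set_option autoImplicit false

namespace Pool.Agent.Helper971.Sq
open Set Filter Topology


theorem meagre_fst {M : Set Z} (h : IsMeagre M) : IsMeagre {p : Z × Z | p.1 ∈ M} := by
  exact h.preimage_of_isOpenMap continuous_fst isOpenMap_fst

end Pool.Agent.Helper971.Sq
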