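import Pool.Agent.Helper971.Sq.Defs

set_option autoImplicit false

namespace Pool.Agent.Helper971.Sq
open Set Filter Topology


theorem meagre_tag (x : Z) : IsMeagre {y : Z | ¬ Tag x y} := by
  have hc : {y : Z | ¬ Tag x y}ᶜ = ⋃ n : ℕ, {y : Z | x (2 * n + 1) ≠ y (2 * n + 1)} := by
    ext y
    simp [Tag]
  unfold IsMeagre
  rw [hc]
  apply residual_of_dense_open
  · apply isOpen_iUnion
    intro n
    have h1 : {y : Z | x (2 * n + 1) ≠ y (2 * n + 1)} =
        (fun y : Z => y (2 * n + 1)) ⁻¹' {b | x (2 * n + 1) ≠ b} := rfl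
    rw [h1]
    exact (isOpen_discrete _).preimage (continuous_apply (2 * n + 1))
  · intro y
    have ht : Tendsto (fun k : ℕ => Function.update y (2 * k + 1) (!(x (2 * k + 1)))) atTop
        (𝓝 y) := by
      rw [tendsto_pi_nhds]
      intro m
      apply tendsto_const_nhds.congr'
      filter_upwards [eventually_gt_atTop m] with k hk
      rw [Function.update_of_ne (by omega)]
    apply mem_closure_of_tendsto ht
    apply Filter.Eventually.of_forall
    intro k
    rw [mem_iUnion]
    refine ⟨k, ?_⟩
    show x (2 * k + 1) ≠ Function.update y (2 * k + 1) (!(x (2 * k + 1))) (2 * k + 1)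
    rw [Function.update_self]
    cases x (2 * k + 1) <;> simp

end Pool.Agent.Helper971.Sq
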