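import Pool.Agent.Helper971.Sq.Defs
import Pool.Agent.Helper971.Sq.P_R_mono

set_option autoImplicit false

namespace Pool.Agent.Helper971.Sq
open Set Filter Topology


theorem rob_insert (W : ℕ → Set Z) (Y : Set ℕ) {X : Set (Z × Set ℕ)} {x : Z} {c B : Set ℕ}
    (h : ∀ H : Set Z, H ⊆ pts X → H.Finite → ∀ k, R W k (cut W (E W H ∩ Y) x c) B) :
    Rob W Y (insert (x, c) X) B := by
  intro H' hH' hfin k
  have h1 := h (H' ∩ pts X) inter_subset_right (hfin.subset inter_subset_left) k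
  refine R_mono W k h1 ?_
  rintro m ⟨⟨hmE, hmY⟩, hx, hsx⟩
  refine ⟨?_, hmY⟩
  intro w hw
  obtain ⟨p, hp, hpw⟩ := hH' hw
  rcases hp with hp | hp
  · subst hp
    rcases hpw with hpw | hpw
    · rw [hpw]; exact hx
    · rw [hpw]; exact hsx
  · exact hmE w ⟨hw, p, hp, hpw⟩

end Pool.Agent.Helper971.Sq
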