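import Pool.Agent.Helper971.Sq.Defs

set_option autoImplicit false

namespace Pool.Agent.Helper971.Sq
open Set Filter Topology


theorem tri_nd {B : Set ℕ} (h : B.Infinite) (N : ℕ) :
    IsMeagre {z : Z | ∀ n ∈ B, N ≤ n → z n = false} := by
  have hcl : IsClosed {z : Z | ∀ n ∈ B, N ≤ n → z n = false} := by
    have : {z : Z | ∀ n ∈ B, N ≤ n → z n = false}
        = ⋂ n, ⋂ (_ : n ∈ B), ⋂ (_ : N ≤ n), {z : Z | z n = false} := by
      ext z; simp
    rw [this]
    refine isClosed_iInter fun n => isClosed_iInter fun _ => isClosed_iInter fun _ => ?_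
    exact isClosed_eq (continuous_apply n) continuous_const
  have hnd : IsNowhereDense {z : Z | ∀ n ∈ B, N ≤ n → z n = false} := by
    rw [hcl.isNowhereDense_iff]
    rw [Set.eq_empty_iff_forall_notMem]
    intro z hz
    have hex : ∀ k : ℕ, ∃ n ∈ B, k < n := fun k => h.exists_gt k
    choose f hfB hfk using hex
    have hlim : Tendsto (fun k => Function.update z (f k) true) atTop (𝓝 z) := by
      rw [tendsto_pi_nhds]
      intro i
      apply tendsto_const_nhds.congr'
      filter_upwards [eventually_ge_atTop i] with k hk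
      have hk2 := hfk k
      rw [Function.update_of_ne (by omega)]
    have hev := hlim.eventually (isOpen_interior.mem_nhds hz)
    obtain ⟨k, hk1, hk2⟩ := (hev.and (eventually_ge_atTop N)).exists
    have h3 := interior_subset hk1 (f k) (hfB k) (by have := hfk k; omega)
    rw [Function.update_self] at h3
    exact Bool.noConfusion h3
  exact hnd.isMeagre

theorem tr_inf {B : Set ℕ} (h : B.Infinite) : IsMeagre {z : Z | ¬ (tr z B).Infinite} := by
  have h1 : IsMeagre (⋃ N : ℕ, {z : Z | ∀ n ∈ B, N ≤ n → z n = false}) :=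
    isMeagre_iUnion (fun N => tri_nd h N)
  apply h1.mono
  intro z hz
  have hfin : (tr z B).Finite := Set.not_infinite.mp hz
  obtain ⟨M, hM⟩ := hfin.bddAbove
  rw [mem_iUnion]
  refine ⟨M + 1, fun n hn hMn => ?_⟩
  cases hb : z n
  · rfl
  · exfalso
    have := hM (show n ∈ tr z B from ⟨hb, hn⟩)
    omega

end Pool.Agent.Helper971.Sq
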