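import Pool.Agent.Helper971.Sq.Defs
import Pool.Agent.Helper971.Sq.P_R_hered
import Pool.Agent.Helper971.Sq.P_good_of_R
import Pool.Agent.Helper971.Sq.P_meagre_fst
import Pool.Agent.Helper971.Sq.P_tr_inf
import Pool.Agent.Helper971.Sq.P_Good_hered
import Pool.Agent.Helper971.Sq.P_diag
import Pool.Agent.Helper971.Sq.P_meagre_tag
import Pool.Agent.Helper971.Sq.P_rob_insert

set_option autoImplicit false

namespace Pool.Agent.Helper971.Sq
open Set Filter Topology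


theorem extend_pts {X : Set (Z × Set ℕ)} (h : X.Countable) : (pts X).Countable := by
  have h1 : pts X ⊆ (fun p : Z × Set ℕ => p.1) '' X ∪ (fun p : Z × Set ℕ => sh p.2 p.1) '' X := by
    rintro w ⟨p, hp, rfl | rfl⟩
    · exact Or.inl ⟨p, hp, rfl⟩
    · exact Or.inr ⟨p, hp, rfl⟩
  exact ((h.image _).union (h.image _)).mono h1

theorem extend_mg {φ : Z × Z → Prop} :
    IsMeagre {p : Z × Z | ¬ φ p} ↔ ∀ᶠ p in residual (Z × Z), φ p := by
  have h : {p : Z × Z | ¬ φ p}ᶜ = {p | φ p} := by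
    ext p
    simp
  unfold IsMeagre
  rw [h]
  rfl

theorem extend {X : Set (Z × Set ℕ)} {B : Set ℕ} (h : Valid X B)
    {Q : Set ((ℕ → Set Z) × Set ℕ)} (hQc : Q.Countable)
    (hQ : ∀ q ∈ Q, Rob q.1 q.2 X B) :
    ∃ Bs : Set ℕ, Bs ⊆ B ∧ Bs.Infinite ∧ ∀ (B2 : Set ℕ) (u : Finset ℕ), B2 ⊆ Bs → B2.Infinite →
      IsMeagre {p : Z × Z | ¬ ((tr p.2 B2).Infinite ∧ (∀ q ∈ X, Tag q.1 p.1) ∧
        ∀ q ∈ Q, ∀ c : Set ℕ, c ⊆ tr p.2 B2 →
          Rob q.1 q.2 (insert (p.1, sd u (tr p.2 B2)) X) c)} := by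
  classical
  have hpc : (pts X).Countable := extend_pts h.cnt
  set T : Set (((ℕ → Set Z) × Set ℕ) × (Set Z × ℕ)) :=
    Q ×ˢ ({H : Set Z | H.Finite ∧ H ⊆ pts X} ×ˢ (univ : Set ℕ)) with hT
  have hTc : T.Countable :=
    hQc.prod ((Set.countable_setOf_finite_subset hpc).prod (Set.countable_univ))
  letI : Encodable T := hTc.toEncodable
  obtain ⟨Bs, hBs, hBsi, hP⟩ := diag (fun n B' => ∀ t : T, Encodable.decode n = some t →
      Good t.1.1.1 t.1.2.2 (E t.1.1.1 t.1.2.1 ∩ t.1.1.2) B') h.inf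
    (fun n B' B'' hP hA t ht => Good_hered _ _ (hP t ht) hA)
    (fun n B' hB' hi => by
      cases hd : (Encodable.decode n : Option T) with
      | none => exact ⟨B', Subset.rfl, hi, fun t ht => by cases ht⟩
      | some t =>
        have hR := hQ t.1.1 t.2.1 t.1.2.1 t.2.2.1.2 t.2.2.1.1 (t.1.2.2 + 1)
        obtain ⟨B'', h1, h2, h3⟩ := good_of_R _ _ hR hB' hi
        refine ⟨B'', h1, h2, fun t' ht' => ?_⟩
        cases ht'
        exact h3)
  have hgood : ∀ q ∈ Q, ∀ H : Set Z, H ⊆ pts X → H.Finite → ∀ k, Good q.1 k (E q.1 H ∩ q.2) Bs := by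
    intro q hq H hH hf k
    exact hP _ ⟨(q, H, k), hq, ⟨hf, hH⟩, trivial⟩ (Encodable.encodek _)
  refine ⟨Bs, hBs, hBsi, fun B2 u hB2 hB2i => ?_⟩
  rw [extend_mg]
  have e1 : ∀ᶠ p in residual (Z × Z), (tr p.2 B2).Infinite := by
    have h1 : ∀ᶠ z in residual Z, (tr z B2).Infinite := by
      have h2 := tr_inf hB2i
      unfold IsMeagre at h2
      have h3 : {z : Z | ¬ (tr z B2).Infinite}ᶜ = {z | (tr z B2).Infinite} := by
        ext z
        simp
      rw [h3] at h2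
      exact h2
    exact (tendsto_residual_of_isOpenMap continuous_snd isOpenMap_snd).eventually h1
  have e2 : ∀ᶠ p in residual (Z × Z), ∀ q ∈ X, Tag q.1 p.1 := by
    rw [eventually_countable_ball h.cnt]
    intro q _
    have h1 := meagre_fst (meagre_tag q.1)
    exact extend_mg.1 h1
  have e3 : ∀ᶠ p in residual (Z × Z), ∀ t ∈ T,
      R t.1.1 t.2.2 (cut t.1.1 (E t.1.1 t.2.1 ∩ t.1.2) p.1 (sd u (tr p.2 B2))) (tr p.2 B2) := by
    rw [eventually_countable_ball hTc]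
    intro t ht
    exact extend_mg.1 (hgood t.1 ht.1 t.2.1 ht.2.1.2 ht.2.1.1 t.2.2 B2 hB2 hB2i u)
  filter_upwards [e1, e2, e3] with p h1 h2 h3
  refine ⟨h1, h2, fun q hq c hc => ?_⟩
  apply rob_insert
  intro H hH hf k
  refine R_hered _ _ (h3 (q, H, k) ⟨hq, ⟨hf, hH⟩, trivial⟩) ?_
  unfold AI
  rw [diff_eq_empty.2 hc]
  exact finite_empty

end Pool.Agent.Helper971.Sq
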