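import Pool.Agent.Helper971.Sq.Defs

set_option autoImplicit false

namespace Pool.Agent.Helper971.Sq
open Set Filter Topology


theorem valid_insert {X : Set (Z × Set ℕ)} {B B2 c : Set ℕ} (h : Valid X B) (hB2 : B2 ⊆ B)
    {x z : Z} (hc : c ⊆ tr z B2) (hci : c.Infinite) (ht : ∀ q ∈ X, Tag q.1 x) (u : Finset ℕ) :
    Valid (insert (x, sd u (tr z B2)) X) c := by
  have hsdB : ∀ q ∈ X, AI (sd u (tr z B2)) q.2 := by
    intro q hq
    refine (u.finite_toSet.union (h.below q hq)).subset ?_
    rintro n ⟨hn1, hn2⟩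
    rcases hn1 with ⟨h1, _⟩ | ⟨_, h1⟩
    · exact Or.inl h1
    · exact Or.inr ⟨hB2 h1.2, hn2⟩
  have hsymm : ∀ a b : Z, Tag a b → Tag b a := fun a b ⟨n, hn⟩ => ⟨n, hn.symm⟩
  refine ⟨h.cnt.insert _, hci, ?_, ?_, ?_⟩
  · intro p hp
    rcases hp with rfl | hp
    · refine u.finite_toSet.subset ?_
      rintro n ⟨hn1, hn2⟩
      by_contra hnu
      exact hn2 (Or.inr ⟨hnu, hc hn1⟩)
    · refine (h.below p hp).subset ?_
      rintro n ⟨hn1, hn2⟩
      exact ⟨hB2 (hc hn1).2, hn2⟩
  · intro p hp q hq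
    rcases hp with rfl | hp
    · rcases hq with rfl | hq
      · left
        simp only [AI, Set.diff_self]
        exact Set.finite_empty
      · exact Or.inl (hsdB q hq)
    · rcases hq with rfl | hq
      · exact Or.inr (hsdB p hp)
      · exact h.lin p hp q hq
  · intro p hp q hq hpq
    rcases hp with rfl | hp
    · rcases hq with rfl | hq
      · exact absurd rfl hpq
      · exact hsymm _ _ (ht q hq)
    · rcases hq with rfl | hq
      · exact ht p hp
      · exact h.tag p hp q hq hpq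

end Pool.Agent.Helper971.Sq
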