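import Pool.Agent.Helper971.Sq.Defs
import Pool.Agent.Helper971.Sq.P_valid_insert
import Pool.Agent.Helper971.Sq.P_extend

set_option autoImplicit false

namespace Pool.Agent.Helper971.Sq
open Set Filter Topology


theorem sd_empty' (s : Set ℕ) : sd ∅ s = s := by
  ext n
  simp [sd]

theorem addpair {X : Set (Z × Set ℕ)} {B : Set ℕ} (h : Valid X B)
    {Q : Set ((ℕ → Set Z) × Set ℕ)} (hQc : Q.Countable) (hQ : ∀ q ∈ Q, Rob q.1 q.2 X B)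
    (C : Set ℕ) {U : Set Z} (hU : IsOpen U) (hUn : U.Nonempty) :
    ∃ (X' : Set (Z × Set ℕ)) (B' : Set ℕ), X ⊆ X' ∧ B' ⊆ B ∧ Valid X' B' ∧
      (∀ q ∈ Q, Rob q.1 q.2 X' B') ∧
      ∃ p ∈ X', p.1 ∈ U ∧ p.2.Infinite ∧ (p.2 ⊆ C ∨ p.2 ⊆ Cᶜ) := by
  obtain ⟨Bs, hBs, hinf, hext⟩ := extend h hQc hQ
  obtain ⟨B2, hB2, hB2i, hB2C⟩ : ∃ B2 : Set ℕ, B2 ⊆ Bs ∧ B2.Infinite ∧ (B2 ⊆ C ∨ B2 ⊆ Cᶜ) := by
    by_cases hC : (Bs ∩ C).Infinite
    · exact ⟨Bs ∩ C, inter_subset_left, hC, Or.inl inter_subset_right⟩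
    · refine ⟨Bs ∩ Cᶜ, inter_subset_left, ?_, Or.inr inter_subset_right⟩
      intro hf
      apply hinf
      have : Bs = (Bs ∩ C) ∪ (Bs ∩ Cᶜ) := by
        rw [← inter_union_distrib_left, union_compl_self, inter_univ]
      rw [this]
      exact (not_infinite.1 hC).union hf
  have hm := hext B2 ∅ hB2 hB2i
  have hopen : IsOpen (U ×ˢ (univ : Set Z)) := hU.prod isOpen_univ
  have hne : (U ×ˢ (univ : Set Z)).Nonempty := hUn.prod univ_nonempty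
  have hnm : ¬ IsMeagre (U ×ˢ (univ : Set Z)) := not_isMeagre_of_isOpen hopen hne
  obtain ⟨p, hpU, hp⟩ : ∃ p ∈ U ×ˢ (univ : Set Z), ((tr p.2 B2).Infinite ∧
      (∀ q ∈ X, Tag q.1 p.1) ∧ ∀ q ∈ Q, ∀ c : Set ℕ, c ⊆ tr p.2 B2 →
          Rob q.1 q.2 (insert (p.1, sd ∅ (tr p.2 B2)) X) c) := by
    by_contra hcon
    push Not at hcon
    apply hnm
    refine hm.mono ?_
    intro p hp hq
    obtain ⟨q, hq1, c, hc, hr⟩ := hcon p hp hq.1 hq.2.1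
    exact hr (hq.2.2 q hq1 c hc)
  obtain ⟨h1, h2, h3⟩ := hp
  have htr : tr p.2 B2 ⊆ B2 := fun n hn => hn.2
  refine ⟨insert (p.1, sd ∅ (tr p.2 B2)) X, tr p.2 B2, subset_insert _ _,
    htr.trans (hB2.trans hBs), valid_insert h (hB2.trans hBs) subset_rfl h1 h2 ∅,
    fun q hq => h3 q hq _ subset_rfl, (p.1, sd ∅ (tr p.2 B2)), mem_insert _ _, hpU.1, ?_, ?_⟩
  · rw [sd_empty']; exact h1
  · rw [sd_empty']
    exact hB2C.imp (fun h => htr.trans h) (fun h => htr.trans h)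

end Pool.Agent.Helper971.Sq
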