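import Pool.Agent.Helper971.Sq.Defs

set_option autoImplicit false

namespace Pool.Agent.Helper971.Sq
open Set Filter Topology


theorem ku {M : Set (Z × Z)} (h : IsMeagre M) :
    IsMeagre {x : Z | ¬ IsMeagre {z : Z | (x, z) ∈ M}} := by
  have h1 : Mᶜ ∈ residual (Z × Z) := h
  rw [mem_residual_iff] at h1
  obtain ⟨S, hSo, hSd, hSc, hS⟩ := h1
  have hBc : (TopologicalSpace.countableBasis Z).Countable :=
    TopologicalSpace.countable_countableBasis Z
  have hBb : TopologicalSpace.IsTopologicalBasis (TopologicalSpace.countableBasis Z) :=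
    TopologicalSpace.isBasis_countableBasis Z
  have key : ∀ G ∈ S, ∀ V ∈ TopologicalSpace.countableBasis Z,
      {x : Z | ∃ z ∈ V, (x, z) ∈ G} ∈ residual Z := by
    intro G hG V hV
    have hVo : IsOpen V := hBb.isOpen hV
    have hVne : V.Nonempty := TopologicalSpace.nonempty_of_mem_countableBasis hV
    apply residual_of_dense_open
    · have e : {x : Z | ∃ z ∈ V, (x, z) ∈ G} = Prod.fst '' (G ∩ (Prod.snd ⁻¹' V)) := by
        ext x
        constructor
        · rintro ⟨z, hz, hxz⟩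
          exact ⟨(x, z), ⟨hxz, hz⟩, rfl⟩
        · rintro ⟨⟨x', z⟩, ⟨hxz, hz⟩, rfl⟩
          exact ⟨z, hz, hxz⟩
      rw [e]
      exact isOpenMap_fst _ ((hSo G hG).inter (hVo.preimage continuous_snd))
    · rw [dense_iff_inter_open]
      intro U hU hUne
      obtain ⟨⟨x, z⟩, ⟨hx, hz⟩, hG'⟩ :=
        (hSd G hG).inter_open_nonempty (U ×ˢ V) (hU.prod hVo) (hUne.prod hVne)
      exact ⟨x, hx, z, hz, hG'⟩
  have hR : (⋂ G ∈ S, ⋂ V ∈ TopologicalSpace.countableBasis Z,
      {x : Z | ∃ z ∈ V, (x, z) ∈ G}) ∈ residual Z := by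
    rw [countable_bInter_mem hSc]
    intro G hG
    rw [countable_bInter_mem hBc]
    exact key G hG
  show {x : Z | ¬ IsMeagre {z : Z | (x, z) ∈ M}}ᶜ ∈ residual Z
  refine Filter.mem_of_superset hR ?_
  intro x hx
  have hx' : ∀ G ∈ S, ∀ V ∈ TopologicalSpace.countableBasis Z, ∃ z ∈ V, (x, z) ∈ G := by
    intro G hG V hV
    have h2 := Set.mem_iInter₂.1 hx G hG
    exact Set.mem_iInter₂.1 h2 V hV
  have hmeagre : IsMeagre {z : Z | (x, z) ∈ M} := by
    show {z : Z | (x, z) ∈ M}ᶜ ∈ residual Z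
    have h3 : (⋂ G ∈ S, {z : Z | (x, z) ∈ G}) ∈ residual Z := by
      rw [countable_bInter_mem hSc]
      intro G hG
      apply residual_of_dense_open
      · exact (hSo G hG).preimage (by fun_prop)
      · rw [hBb.dense_iff]
        intro V hV _
        obtain ⟨z, hz, hz'⟩ := hx' G hG V hV
        exact ⟨z, hz, hz'⟩
    refine Filter.mem_of_superset h3 ?_
    intro z hz hM
    exact hS (Set.mem_sInter.2 fun G hG => Set.mem_iInter₂.1 hz G hG) hM
  intro hcon
  exact hcon hmeagre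

end Pool.Agent.Helper971.Sq
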