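import Pool.Agent.Helper971.Sq.Defs
import Pool.Agent.Helper971.Sq.P_K_mono
import Pool.Agent.Helper971.Sq.P_K_hered
import Pool.Agent.Helper971.Sq.P_ku
import Pool.Agent.Helper971.Sq.P_tr_inf

set_option autoImplicit false

namespace Pool.Agent.Helper971.Sq
open Set Filter Topology


theorem claim2 (W : ℕ → Set Z) (k : ℕ) {S B : Set ℕ} (hB : B.Infinite) (h : R W (k + 1) S B) :
    ∃ B' : Set ℕ, B' ⊆ B ∧ B'.Infinite ∧
      IsMeagre {x : Z | ∃ B'' : Set ℕ, B'' ⊆ B' ∧ B''.Infinite ∧ K W k (S ∩ F W x) B''} := by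
  by_contra hcon
  push Not at hcon
  refine h B (Subset.refl B) hB ?_
  intro B1 hB1 hB1i
  refine ⟨B1, Subset.refl _, hB1i, ∅, ?_⟩
  intro hT
  have h1 := ku hT
  have hXX := hcon B1 hB1 hB1i
  have hex : ∃ x : Z, (∃ B'' : Set ℕ, B'' ⊆ B1 ∧ B''.Infinite ∧ K W k (S ∩ F W x) B'') ∧
      IsMeagre {z : Z | (x, z) ∈ {p : Z × Z | ∃ c : Set ℕ, c ⊆ tr p.2 B1 ∧ c.Infinite ∧
        K W k (cut W S p.1 (sd ∅ (tr p.2 B1))) c}} := by
    by_contra hne
    push Not at hne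
    apply hXX
    refine h1.mono ?_
    rintro x ⟨B'', hb1, hb2, hb3⟩
    exact hne x ⟨B'', hb1, hb2, hb3⟩
  obtain ⟨x, ⟨B'', hB'', hBi, hK⟩, hM⟩ := hex
  have h2 := tr_inf hBi
  have h3 := hM.union h2
  refine not_isMeagre_of_isOpen (X := Z) isOpen_univ ⟨fun _ => true, mem_univ _⟩ (h3.mono ?_)
  intro z _
  by_cases hz : (tr z B'').Infinite
  · left
    refine ⟨tr z B'', fun n hn => ⟨hn.1, hB'' hn.2⟩, hz, ?_⟩
    have hcut : cut W S x (sd ∅ (tr z B1)) ⊆ S ∩ F W x := fun m hm => ⟨hm.1, hm.2.1⟩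
    refine K_hered W k (K_mono W k hK hcut) ?_
    unfold AI
    have : tr z B'' \ B'' = ∅ := by
      ext n
      constructor
      · rintro ⟨⟨_, h4⟩, h5⟩
        exact absurd h4 h5
      · intro h4
        exact absurd h4 (notMem_empty n)
    rw [this]
    exact finite_empty
  · right
    exact hz

end Pool.Agent.Helper971.Sq
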