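import Pool.Agent.Helper971.Sq.Defs
import Pool.Agent.Helper971.Sq.P_K_hered
import Pool.Agent.Helper971.Sq.P_R_hered
import Pool.Agent.Helper971.Sq.P_diag
import Pool.Agent.Helper971.Sq.P_claim2

set_option autoImplicit false

namespace Pool.Agent.Helper971.Sq
open Set Filter Topology


theorem claim2' (W : ℕ → Set Z) (En : ℕ → Set ℕ) {B : Set ℕ} (hB : B.Infinite)
    (h : ∀ n k, R W k (En n) B) :
    ∃ B' : Set ℕ, B' ⊆ B ∧ B'.Infinite ∧
      IsMeagre {x : Z | ∃ B'' : Set ℕ, B'' ⊆ B' ∧ B''.Infinite ∧ J W En B'' (F W x)} := by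
  obtain ⟨Bs, hBs, hBsi, hP⟩ := diag
    (fun m B' => IsMeagre {x : Z | ∃ B'' : Set ℕ, B'' ⊆ B' ∧ B''.Infinite ∧
      K W (Nat.unpair m).2 (En (Nat.unpair m).1 ∩ F W x) B''}) hB
    (by
      intro m B' B'' hm hAI
      refine IsMeagre.mono ?_ hm
      rintro x ⟨B3, hB3, hB3i, hK⟩
      refine ⟨B3 ∩ B', inter_subset_right, ?_, ?_⟩
      · intro hfin
        apply hB3i
        have h1 : B3 ⊆ (B3 ∩ B') ∪ (B'' \ B') := by
          intro y hy
          by_cases hyB : y ∈ B'
          · exact Or.inl ⟨hy, hyB⟩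
          · exact Or.inr ⟨hB3 hy, hyB⟩
        exact (hfin.union hAI).subset h1
      · refine K_hered W _ hK ?_
        have h2 : (B3 ∩ B') \ B3 = ∅ := by
          ext y
          constructor
          · rintro ⟨⟨h1, _⟩, h3⟩
            exact absurd h1 h3
          · intro h1
            exact absurd h1 (notMem_empty y)
        show ((B3 ∩ B') \ B3).Finite
        rw [h2]
        exact Set.finite_empty)
    (by
      intro m B' hB' hB'i
      have h1 : R W ((Nat.unpair m).2 + 1) (En (Nat.unpair m).1) B' := by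
        refine R_hered W _ (h _ _) ?_
        have h2 : B' \ B = ∅ := by
          ext y
          constructor
          · rintro ⟨h1, h3⟩
            exact absurd (hB' h1) h3
          · intro h1
            exact absurd h1 (notMem_empty y)
        show (B' \ B).Finite
        rw [h2]
        exact Set.finite_empty
      exact claim2 W _ hB'i h1)
  refine ⟨Bs, hBs, hBsi, ?_⟩
  refine IsMeagre.mono ?_ (isMeagre_iUnion hP)
  rintro x ⟨B'', hB'', hB''i, n, k, hK⟩
  refine mem_iUnion.2 ⟨Nat.pair n k, B'', hB'', hB''i, ?_⟩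
  rw [Nat.unpair_pair]
  exact hK

end Pool.Agent.Helper971.Sq
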