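import Pool.Agent.Helper971.Sq.Defs

set_option autoImplicit false

namespace Pool.Agent.Helper971.Sq
open Set Filter Topology


theorem continuous_sh (u : Finset ℕ) (B : Set ℕ) :
    Continuous (fun p : Z × Z => sh (sd u (tr p.2 B)) p.1) := by
  classical
  refine continuous_pi fun n => ?_
  obtain ⟨m, hm⟩ : ∃ m, m = (n - 2) / 2 := ⟨_, rfl⟩
  have h1 : ∀ c : Set ℕ, n ∈ ec c ↔ (n = 0 ∨ ((∃ m', n = 2 * m' + 2) ∧ m ∈ c)) := by
    intro c
    constructor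
    · rintro (h | ⟨m', hm', h⟩)
      · exact Or.inl h
      · have h2 : m = m' := by omega
        exact Or.inr ⟨⟨m', h⟩, h2 ▸ hm'⟩
    · rintro (h | ⟨⟨m', h⟩, hc⟩)
      · exact Or.inl h
      · have h2 : m = m' := by omega
        exact Or.inr ⟨m', h2 ▸ hc, h⟩
  have h3 : (fun p : Z × Z => sh (sd u (tr p.2 B)) p.1 n) =
      (fun q : Bool × Bool => if (n = 0 ∨ ((∃ m', n = 2 * m' + 2) ∧
        ((m ∈ u ∧ ¬ (q.2 = true ∧ m ∈ B)) ∨ (m ∉ u ∧ (q.2 = true ∧ m ∈ B))))) then !q.1 else q.1) ∘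
      (fun p : Z × Z => (p.1 n, p.2 m)) := by
    funext p
    show (if n ∈ ec (sd u (tr p.2 B)) then !(p.1 n) else p.1 n) = _
    have h4 : n ∈ ec (sd u (tr p.2 B)) ↔ (n = 0 ∨ ((∃ m', n = 2 * m' + 2) ∧
        ((m ∈ u ∧ ¬ (p.2 m = true ∧ m ∈ B)) ∨ (m ∉ u ∧ (p.2 m = true ∧ m ∈ B))))) :=
      h1 (sd u (tr p.2 B))
    by_cases h5 : n ∈ ec (sd u (tr p.2 B))
    · rw [if_pos h5]
      exact (if_pos (h4.mp h5)).symm
    · rw [if_neg h5]
      exact (if_neg (fun h => h5 (h4.mpr h))).symm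
  rw [h3]
  exact continuous_of_discreteTopology.comp (((continuous_apply n).comp continuous_fst).prodMk
    ((continuous_apply m).comp continuous_snd))

end Pool.Agent.Helper971.Sq
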