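import Pool.Agent.Helper971.Sq.Defs

set_option autoImplicit false

namespace Pool.Agent.Helper971.Sq
open Set Filter Topology


theorem countgen (W : ℕ → Set Z) (hW : ∀ m, IsOpen (W m)) (En : ℕ → Set ℕ) (Q : Filter ℕ)
    (h1 : ∀ (U : Set Z) (u : Finset ℕ), IsOpen U → U.Nonempty → Dn W U u ∈ Q)
    (h2 : ∀ n, En n ∈ Q) (h3 : Q ≤ cofinite) :
    ∃ G : Filter ℕ, G.IsCountablyGenerated ∧ Q ≤ G ∧ G ≤ cofinite ∧ (∀ n, En n ∈ G) ∧
      ∀ (U : Set Z) (u : Finset ℕ), IsOpen U → U.Nonempty → Dn W U u ∈ G := by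
  let b : Set (Set Z) := TopologicalSpace.countableBasis Z
  have hb : TopologicalSpace.IsTopologicalBasis b := TopologicalSpace.isBasis_countableBasis Z
  have hbc : b.Countable := TopologicalSpace.countable_countableBasis Z
  haveI : Countable b := hbc.to_subtype
  let G1 : Filter ℕ := ⨅ x : b × Finset ℕ, 𝓟 (Dn W x.1.1 x.2)
  let G2 : Filter ℕ := ⨅ n, 𝓟 (En n)
  have hcof : (cofinite : Filter ℕ).IsCountablyGenerated := by
    rw [Nat.cofinite_eq_atTop]
    infer_instance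
  refine ⟨G1 ⊓ G2 ⊓ cofinite, inferInstance, ?_, inf_le_right, ?_, ?_⟩
  · refine le_inf (le_inf (le_iInf fun x => ?_) (le_iInf fun n => ?_)) h3
    · rw [le_principal_iff]
      exact h1 x.1.1 x.2 (hb.isOpen x.1.2) (TopologicalSpace.nonempty_of_mem_countableBasis x.1.2)
    · rw [le_principal_iff]
      exact h2 n
  · intro n
    have h : G1 ⊓ G2 ⊓ cofinite ≤ 𝓟 (En n) :=
      (inf_le_left.trans inf_le_right).trans (iInf_le (fun n => 𝓟 (En n)) n)
    exact le_principal_iff.mp h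
  · intro U u hU hne
    obtain ⟨z, hz⟩ := hne
    obtain ⟨V, hV, hzV, hVU⟩ := hb.exists_subset_of_mem_open hz hU
    have h : G1 ⊓ G2 ⊓ cofinite ≤ 𝓟 (Dn W V u) :=
      (inf_le_left.trans inf_le_left).trans
        (iInf_le (fun x : b × Finset ℕ => 𝓟 (Dn W x.1.1 x.2)) (⟨V, hV⟩, u))
    refine mem_of_superset (le_principal_iff.mp h) ?_
    rintro m ⟨x, hx, h4⟩
    exact ⟨x, hVU hx, h4⟩

end Pool.Agent.Helper971.Sq
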