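import Pool.Agent.Helper971.Sq.Defs

set_option autoImplicit false

namespace Pool.Agent.Helper971.Sq
open Set Filter Topology


lemma enum_basis : ∃ b : ℕ → Set Z, TopologicalSpace.IsTopologicalBasis (range b) := by
  have hB := TopologicalSpace.isBasis_countableBasis Z
  have hne : (TopologicalSpace.countableBasis Z).Nonempty := by
    by_contra h
    rw [not_nonempty_iff_eq_empty] at h
    have h1 := hB.sUnion_eq
    rw [h, sUnion_empty] at h1
    have h2 : (fun _ => true : Z) ∈ (∅ : Set Z) := by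
      rw [h1]
      exact mem_univ _
    exact h2
  obtain ⟨b, hb⟩ := (TopologicalSpace.countable_countableBasis Z).exists_eq_range hne
  exact ⟨b, hb ▸ hB⟩

lemma enum_code (b : ℕ → Set Z) (hb : TopologicalSpace.IsTopologicalBasis (range b))
    {O O' : Set Z} (hO : IsOpen O) (hO' : IsOpen O') (h : {n | b n ⊆ O} = {n | b n ⊆ O'}) :
    O = O' := by
  rw [hb.open_eq_sUnion' hO, hb.open_eq_sUnion' hO']
  congr 1
  ext s
  constructor
  · rintro ⟨⟨n, rfl⟩, hn⟩
    have h1 : n ∈ {n | b n ⊆ O} := hn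
    rw [h] at h1
    exact ⟨⟨n, rfl⟩, h1⟩
  · rintro ⟨⟨n, rfl⟩, hn⟩
    have h1 : n ∈ {n | b n ⊆ O'} := hn
    rw [← h] at h1
    exact ⟨⟨n, rfl⟩, h1⟩

theorem enum (hCH : Cardinal.aleph 1 = Cardinal.continuum.{0}) :
    ∃ (I : Type) (_ : LinearOrder I) (_ : WellFoundedLT I), (∀ i : I, (Iio i).Countable) ∧
      ∃ (C : I → Set ℕ) (O : I → ℕ → Set Z) (U : I → Set Z), (∀ i n, IsOpen (O i n)) ∧
        (∀ i, IsOpen (U i)) ∧ (∀ i, (U i).Nonempty) ∧
        ∀ (C' : Set ℕ) (O' : ℕ → Set Z) (U' : Set Z), (∀ n, IsOpen (O' n)) → IsOpen U' →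
          U'.Nonempty → ∃ i, C i = C' ∧ O i = O' ∧ U i = U' := by
  obtain ⟨b, hb⟩ := enum_basis
  let T := Set ℕ × (ℕ → {O : Set Z // IsOpen O}) × {U : Set Z // IsOpen U ∧ U.Nonempty}
  let f : T → Set ℕ × (ℕ → Set ℕ) × Set ℕ := fun t =>
    (t.1, fun k => {n | b n ⊆ (t.2.1 k).1}, {n | b n ⊆ t.2.2.1})
  have hf : Function.Injective f := by
    rintro ⟨C, O, U⟩ ⟨C', O', U'⟩ h
    have h1 : C = C' := congrArg Prod.fst h
    have h2 : (fun k => {n | b n ⊆ (O k).1}) = fun k => {n | b n ⊆ (O' k).1} :=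
      congrArg (fun p => p.2.1) h
    have h3 : {n | b n ⊆ U.1} = {n | b n ⊆ U'.1} := congrArg (fun p => p.2.2) h
    have h4 : O = O' := by
      funext k
      exact Subtype.ext (enum_code b hb (O k).2 (O' k).2 (congrFun h2 k))
    have h5 : U = U' := Subtype.ext (enum_code b hb U.2.1 U'.2.1 h3)
    rw [h1, h4, h5]
  have hcard : Cardinal.mk T ≤ Cardinal.mk (Cardinal.aleph 1).ord.ToType := by
    rw [Cardinal.mk_ord_toType, hCH]
    refine (Cardinal.mk_le_of_injective hf).trans ?_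
    have h1 : Cardinal.mk (Set ℕ) = Cardinal.continuum := by simp
    have h2 : Cardinal.mk (ℕ → Set ℕ) = Cardinal.continuum := by
      rw [← Cardinal.power_def, h1]
      simp
    simp only [Cardinal.mk_prod, Cardinal.lift_id, h1, h2, Cardinal.continuum_mul_self]
    exact le_rfl
  obtain ⟨j⟩ := hcard
  have hTne : Nonempty T := ⟨(∅, fun _ => ⟨∅, isOpen_empty⟩, ⟨univ, isOpen_univ, univ_nonempty⟩)⟩
  refine ⟨(Cardinal.aleph 1).ord.ToType, inferInstance, inferInstance, ?_, ?_⟩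
  · intro i
    rw [← Cardinal.le_aleph0_iff_set_countable, ← Cardinal.lt_aleph_one_iff]
    exact Cardinal.mk_Iio_toType_ord_lt i
  · let g : (Cardinal.aleph 1).ord.ToType → T := Function.invFun j
    have hg : Function.Surjective g := Function.invFun_surjective j.injective
    refine ⟨fun i => (g i).1, fun i n => ((g i).2.1 n).1, fun i => (g i).2.2.1,
      fun i n => ((g i).2.1 n).2, fun i => (g i).2.2.2.1, fun i => (g i).2.2.2.2, ?_⟩
    intro C' O' U' hO' hU' hU'n
    obtain ⟨i, hi⟩ := hg (C', fun n => ⟨O' n, hO' n⟩, ⟨U', hU', hU'n⟩)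
    refine ⟨i, ?_, ?_, ?_⟩
    · beta_reduce
      rw [hi]
    · beta_reduce
      rw [hi]
    · beta_reduce
      rw [hi]

end Pool.Agent.Helper971.Sq
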