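import Pool.Agent.Helper971.Sq.Defs

set_option autoImplicit false

namespace Pool.Agent.Helper971.Sq
open Set Filter Topology


theorem final_split {I : Type} [LinearOrder I] {C : I → Set ℕ} {O : I → ℕ → Set Z}
    {U : I → Set Z} {d : I → D} (hd : ∀ i, Req C O U i (fun j _ => d j) (d i))
    (hall : ∀ O' : ℕ → Set Z, (∀ n, IsOpen (O' n)) → ∃ i, O i = O')
    (w : ℕ → Set Z) (hw : ∀ n, IsOpen (w n))
    (hω : ∀ H : Set Z, H ⊆ pts (⋃ i, (d i).1) → H.Finite → (E w H).Infinite) :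
    ∃ Y : Set ℕ, ∀ H : Set Z, H ⊆ pts (⋃ i, (d i).1) → H.Finite →
      (E w H ∩ Y).Infinite ∧ (E w H ∩ Yᶜ).Infinite := by
  obtain ⟨i, hi⟩ := hall w hw
  have hmono : ∀ j k : I, j ≤ k → (d j).1 ⊆ (d k).1 := by
    intro j k hjk
    rcases hjk.lt_or_eq with h | h
    · exact ((hd k).2.1 j h).1
    · rw [h]
  have hptsm : ∀ X Y : Set (Z × Set ℕ), X ⊆ Y → pts X ⊆ pts Y := by
    rintro X Y h w ⟨p, hp, hw⟩
    exact ⟨p, h hp, hw⟩
  have hfin : ∀ H : Set Z, H.Finite → H ⊆ pts (⋃ i, (d i).1) → ∃ j, i ≤ j ∧ H ⊆ pts (d j).1 := by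
    intro H hH
    induction H, hH using Set.Finite.induction_on with
    | empty => intro _; exact ⟨i, le_rfl, Set.empty_subset _⟩
    | insert _ _ ih =>
      intro hsub
      obtain ⟨j1, hj1, hj1'⟩ := ih (fun x hx => hsub (Set.mem_insert_of_mem _ hx))
      obtain ⟨p, hp, hp'⟩ := hsub (Set.mem_insert _ _)
      obtain ⟨j2, hj2⟩ := Set.mem_iUnion.1 hp
      refine ⟨max j1 j2, le_max_of_le_left hj1, ?_⟩
      rw [Set.insert_subset_iff]
      exact ⟨⟨p, hmono _ _ (le_max_right _ _) hj2, hp'⟩,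
        hj1'.trans (hptsm _ _ (hmono _ _ (le_max_left _ _)))⟩
  refine ⟨(d i).2.2, fun H hH hHf => ?_⟩
  obtain ⟨j, hij, hHj⟩ := hfin H hHf hH
  have hOK : OK w (d i).2.2 (d j).1 (d j).2.1 := by
    rw [← hi]
    rcases hij.lt_or_eq with h | h
    · exact (hd j).2.2.2.1 i h
    · rw [← h]
      exact (hd i).2.2.1
  have hinf : ((d j).2.1).Infinite := (hd j).1.inf
  rcases hOK with hdead | ⟨h1, h2⟩
  · obtain ⟨H', hH', hf, hE⟩ := hdead
    exact absurd hE (hω H' (hH'.trans (hptsm _ _ (Set.subset_iUnion (fun i => (d i).1) j))) hf)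
  · exact ⟨h1 H hHj hHf 0 _ (subset_refl _) hinf, h2 H hHj hHf 0 _ (subset_refl _) hinf⟩

end Pool.Agent.Helper971.Sq
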