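import Pool.Agent.Helper971.Sq.Defs

set_option autoImplicit false

namespace Pool.Agent.Helper971.Sq
open Set Filter Topology


theorem no_cg (G : Filter ℕ) [G.NeBot] [G.IsCountablyGenerated] (h : G ≤ cofinite) :
    ∃ Y : Set ℕ, Y ∉ G ∧ Yᶜ ∉ G := by
  obtain ⟨b, hb⟩ := G.exists_antitone_basis
  have hinf : ∀ n m : ℕ, ∃ x, x ∈ b n ∧ m < x := by
    intro n m
    by_contra hcon
    push Not at hcon
    have h1 : b n ∈ G := hb.1.mem_of_mem trivial
    have h2 : (b n)ᶜ ∈ G := by
      apply h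
      rw [mem_cofinite, compl_compl]
      exact (Set.finite_Iic m).subset fun x hx => hcon x hx
    have h3 : (∅ : Set ℕ) ∈ G := by
      have := inter_mem h1 h2
      rwa [Set.inter_compl_self] at this
    exact (NeBot.ne ‹G.NeBot›) (empty_mem_iff_bot.1 h3)
  choose f hf1 hf2 using hinf
  let c : ℕ → ℕ := fun k => Nat.rec (f 0 0) (fun k ck => f ((k + 1) / 2) ck) k
  have hc0 : c 0 = f 0 0 := rfl
  have hcs : ∀ k, c (k + 1) = f ((k + 1) / 2) (c k) := fun k => rfl
  have hmem : ∀ k, c k ∈ b (k / 2) := by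
    intro k
    cases k with
    | zero => rw [hc0]; exact hf1 0 0
    | succ k => rw [hcs]; exact hf1 _ _
  have hmono : StrictMono c := strictMono_nat_of_lt_succ fun k => by
    rw [hcs]
    exact hf2 _ _
  refine ⟨{x | ∃ n, x = c (2 * n)}, ?_, ?_⟩
  · intro hY
    obtain ⟨n, -, hn⟩ := hb.1.mem_iff.1 hY
    have h1 : c (2 * n + 1) ∈ b n := by
      have := hmem (2 * n + 1)
      rwa [show (2 * n + 1) / 2 = n by omega] at this
    obtain ⟨m, hm⟩ := hn h1
    have : 2 * n + 1 = 2 * m := hmono.injective hm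
    omega
  · intro hY
    obtain ⟨n, -, hn⟩ := hb.1.mem_iff.1 hY
    have h1 : c (2 * n) ∈ b n := by
      have := hmem (2 * n)
      rwa [show (2 * n) / 2 = n by omega] at this
    exact hn h1 ⟨n, rfl⟩

end Pool.Agent.Helper971.Sq
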