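import Pool.Agent.Helper971.Sq.Defs
import Pool.Agent.Helper971.Sq.P_continuous_sh

set_option autoImplicit false

namespace Pool.Agent.Helper971.Sq
open Set Filter Topology


theorem nodes (W : ℕ → Set Z) (hW : ∀ m, IsOpen (W m)) (G : Filter ℕ) [G.IsCountablyGenerated]
    (hG : ∀ (U : Set Z) (u : Finset ℕ), IsOpen U → U.Nonempty → Dn W U u ∈ G)
    (hc : G ≤ cofinite) :
    ∀ (k : ℕ) (S B : Set ℕ), B.Infinite → K W k S B → Sᶜ ∈ G := by
  intro k
  induction k with
  | zero =>
    intro S B _ hK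
    have hK' : S.Finite := hK
    exact hc (by simpa using hK')
  | succ k ih =>
    intro S B hB hK
    obtain ⟨B2, hB2, hB2i, u, hT⟩ := hK B subset_rfl hB
    obtain ⟨b, hb⟩ := G.exists_antitone_basis
    set C : ℕ → Set (Z × Z) := fun j =>
      {p | ∀ m ∈ b j, m ∉ cut W S p.1 (sd u (tr p.2 B2))} with hC
    have hcl : ∀ j, IsClosed (C j) := by
      intro j
      have e : C j = ⋂ m ∈ b j, {p : Z × Z | m ∉ cut W S p.1 (sd u (tr p.2 B2))} := by
        ext p; simp [hC]
      rw [e]
      refine isClosed_biInter fun m _ => ?_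
      rw [← isOpen_compl_iff]
      by_cases hm : m ∈ S
      · have e2 : {p : Z × Z | m ∉ cut W S p.1 (sd u (tr p.2 B2))}ᶜ =
            (Prod.fst ⁻¹' W m) ∩ ((fun p : Z × Z => sh (sd u (tr p.2 B2)) p.1) ⁻¹' W m) := by
          ext p; simp [cut, hm]
        rw [e2]
        exact ((hW m).preimage continuous_fst).inter ((hW m).preimage (continuous_sh u B2))
      · have e2 : {p : Z × Z | m ∉ cut W S p.1 (sd u (tr p.2 B2))}ᶜ = ∅ := by
          ext p; simp [cut, hm]
        rw [e2]; exact isOpen_empty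
    have hsub : {p : Z × Z | ∃ c : Set ℕ, c ⊆ tr p.2 B2 ∧ c.Infinite ∧
        K W k (cut W S p.1 (sd u (tr p.2 B2))) c} ⊆ ⋃ j, C j := by
      rintro p ⟨c, _, hci, hKc⟩
      have h1 := ih _ c hci hKc
      obtain ⟨j, hj⟩ := hb.mem_iff.mp h1
      exact mem_iUnion.mpr ⟨j, fun m hm hm' => hj hm hm'⟩
    have hex : ∃ j, ¬ IsMeagre (C j) := by
      by_contra hcon
      push Not at hcon
      exact hT ((isMeagre_iUnion hcon).mono hsub)
    obtain ⟨j, hj⟩ := hex
    have hint : (interior (C j)).Nonempty := by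
      rw [nonempty_iff_ne_empty]
      intro h0
      exact hj (((hcl j).isNowhereDense_iff.mpr h0).isMeagre)
    obtain ⟨p0, hp0⟩ := hint
    obtain ⟨U, V, hU, hV, hpU, hpV, hUV⟩ := isOpen_prod_iff.mp isOpen_interior p0.1 p0.2 hp0
    obtain ⟨I, w, hw, hwV⟩ := isOpen_pi_iff.mp hV p0.2 hpV
    set z0 : Z := fun n => if n ∈ I then p0.2 n else false with hz0
    have hz0V : z0 ∈ V := by
      refine hwV fun i hi => ?_
      have hi' : i ∈ I := by simpa using hi
      simp only [hz0, hi', if_true]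
      exact (hw i hi').2
    have hfin : (sd u (tr z0 B2)).Finite := by
      refine ((u ∪ I).finite_toSet).subset ?_
      rintro n (⟨hn, _⟩ | ⟨_, hn⟩)
      · simp [hn]
      · have : z0 n = true := hn.1
        have hnI : n ∈ I := by
          by_contra hnI
          simp [hz0, hnI] at this
        simp [hnI]
    have hD := hG U hfin.toFinset hU ⟨p0.1, hpU⟩
    refine G.mem_of_superset (G.inter_mem (hb.mem j) hD) ?_
    rintro m ⟨hmb, x, hxU, hxW, hsW⟩ hmS
    rw [hfin.coe_toFinset] at hsW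
    have : (x, z0) ∈ C j := interior_subset (hUV ⟨hxU, hz0V⟩)
    exact this m hmb ⟨hmS, hxW, hsW⟩

end Pool.Agent.Helper971.Sq
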