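import Pool.Agent.Helper971.Sq.Defs

set_option autoImplicit false

namespace Pool.Agent.Helper971.Sq
open Set Filter Topology


theorem sh_sh (c : Set ℕ) (x : Z) : sh c (sh c x) = x := by
  funext n
  unfold sh
  by_cases h : n ∈ ec c <;> simp [h]

end Pool.Agent.Helper971.Sq
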