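import Pool.Agent.Helper971.Sq.Defs
import Pool.Agent.Helper971.Sq.P_continuous_sh
import Pool.Agent.Helper971.Sq.P_sh_sh

set_option autoImplicit false

namespace Pool.Agent.Helper971.Sq
open Set Filter Topology


theorem meagre_sh (u : Finset ℕ) (B : Set ℕ) {M : Set (Z × Z)} (h : IsMeagre M) :
    IsMeagre {p : Z × Z | (sh (sd u (tr p.2 B)) p.1, p.2) ∈ M} := by
  have hc := continuous_sh u B
  let φ : (Z × Z) ≃ₜ (Z × Z) :=
    { toFun := fun p => (sh (sd u (tr p.2 B)) p.1, p.2)
      invFun := fun p => (sh (sd u (tr p.2 B)) p.1, p.2)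
      left_inv := fun p => by
        show (sh (sd u (tr p.2 B)) (sh (sd u (tr p.2 B)) p.1), p.2) = p
        rw [sh_sh]
      right_inv := fun p => by
        show (sh (sd u (tr p.2 B)) (sh (sd u (tr p.2 B)) p.1), p.2) = p
        rw [sh_sh]
      continuous_toFun := hc.prodMk continuous_snd
      continuous_invFun := hc.prodMk continuous_snd }
  exact h.preimage_of_isOpenMap φ.continuous φ.isOpenMap

end Pool.Agent.Helper971.Sq
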