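import Pool.Agent.Helper971.Sq.Defs
import Pool.Agent.Helper971.Sq.P_meagre_fst
import Pool.Agent.Helper971.Sq.P_meagre_sh
import Pool.Agent.Helper971.Sq.P_J_union
import Pool.Agent.Helper971.Sq.P_J_hered

set_option autoImplicit false

namespace Pool.Agent.Helper971.Sq
open Set Filter Topology


theorem star_AI {A B : Set ℕ} (h : A ⊆ B) : AI A B := by
  unfold AI
  rw [Set.sdiff_eq_empty.mpr h]
  exact Set.finite_empty

theorem star (W : ℕ → Set Z) {En : ℕ → Set ℕ} (hE : Antitone En) {B1 : Set ℕ}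
    (hM : IsMeagre {x : Z | ∃ B'' : Set ℕ, B'' ⊆ B1 ∧ B''.Infinite ∧ J W En B'' (F W x)})
    (hd : ∀ Y B' : Set ℕ, B' ⊆ B1 → B'.Infinite →
      ∃ B'' : Set ℕ, B'' ⊆ B' ∧ B''.Infinite ∧ (J W En B'' Y ∨ J W En B'' Yᶜ)) :
    ∀ (k : ℕ) (S Bb Ba : Set ℕ), Bb ⊆ B1 → Bb.Infinite → Ba ⊆ B1 → Ba.Infinite → K W k S Bb →
      ∃ B' : Set ℕ, B' ⊆ Ba ∧ B'.Infinite ∧ J W En B' S := by
  intro k
  induction k with
  | zero =>
    intro S Bb Ba hBb hBbi hBa hBai hK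
    have hS : S.Finite := hK
    refine ⟨Ba, Subset.rfl, hBai, 0, 0, ?_⟩
    show (En 0 ∩ S).Finite
    exact hS.subset inter_subset_right
  | succ k ih =>
    intro S Bb Ba hBb hBbi hBa hBai hK
    obtain ⟨B2, hB2, hB2i, u, hnm⟩ := hK Bb Subset.rfl hBbi
    have hN1 := meagre_fst hM
    have hN2 := meagre_sh u B2 hN1
    have hex : ∃ p : Z × Z, (∃ c : Set ℕ, c ⊆ tr p.2 B2 ∧ c.Infinite ∧
        K W k (cut W S p.1 (sd u (tr p.2 B2))) c) ∧
        (¬ ∃ B'' : Set ℕ, B'' ⊆ B1 ∧ B''.Infinite ∧ J W En B'' (F W p.1)) ∧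
        (¬ ∃ B'' : Set ℕ, B'' ⊆ B1 ∧ B''.Infinite ∧ J W En B'' (F W (sh (sd u (tr p.2 B2)) p.1))) := by
      by_contra hcon
      apply hnm
      refine (hN1.union hN2).mono ?_
      intro p hp
      by_contra hp2
      apply hcon
      refine ⟨p, hp, fun h => hp2 (Or.inl h), fun h => hp2 (Or.inr h)⟩
    obtain ⟨⟨x, z⟩, ⟨c, hc, hci, hKc⟩, hx, hy⟩ := hex
    have hcB1 : c ⊆ B1 := fun n hn => hBb (hB2 (hc hn).2)
    obtain ⟨B', hB', hB'i, hJ1⟩ := ih _ c Ba hcB1 hci hBa hBai hKc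
    obtain ⟨B'', hB'', hB''i, hJ2⟩ := hd (F W x) B' (hB'.trans hBa) hB'i
    have hJ2' : J W En B'' (F W x)ᶜ :=
      hJ2.resolve_left fun h => hx ⟨B'', (hB''.trans hB').trans hBa, hB''i, h⟩
    obtain ⟨B3, hB3, hB3i, hJ3⟩ := hd (F W (sh (sd u (tr z B2)) x)) B'' ((hB''.trans hB').trans hBa) hB''i
    have hJ3' : J W En B3 (F W (sh (sd u (tr z B2)) x))ᶜ :=
      hJ3.resolve_left fun h => hy ⟨B3, (hB3.trans (hB''.trans hB')).trans hBa, hB3i, h⟩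
    refine ⟨B3, hB3.trans (hB''.trans hB'), hB3i, ?_⟩
    have h1 := J_hered W hJ1 (star_AI (hB3.trans hB'')) Subset.rfl
    have h2 := J_hered W hJ2' (star_AI hB3) Subset.rfl
    have h3 := J_union W hE (J_union W hE h1 h2) hJ3'
    refine J_hered W h3 (star_AI Subset.rfl) ?_
    intro m hm
    by_cases hxm : x ∈ W m
    · by_cases hym : sh (sd u (tr z B2)) x ∈ W m
      · exact Or.inl (Or.inl ⟨hm, hxm, hym⟩)
      · exact Or.inr hym
    · exact Or.inl (Or.inr hxm)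

end Pool.Agent.Helper971.Sq
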