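import Pool.Agent.Helper971.Sq.Defs
import Pool.Agent.Helper971.Sq.P_K_mono
import Pool.Agent.Helper971.Sq.P_claim2p
import Pool.Agent.Helper971.Sq.P_J_union
import Pool.Agent.Helper971.Sq.P_J_hered
import Pool.Agent.Helper971.Sq.P_star
import Pool.Agent.Helper971.Sq.P_nodes
import Pool.Agent.Helper971.Sq.P_countgen
import Pool.Agent.Helper971.Sq.P_no_cg
import Pool.Agent.Helper971.Sq.P_ku
import Pool.Agent.Helper971.Sq.P_meagre_fst
import Pool.Agent.Helper971.Sq.P_meagre_sh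

set_option autoImplicit false

namespace Pool.Agent.Helper971.Sq

open Set Filter Topology

theorem AI_of_subset {A B : Set ℕ} (h : A ⊆ B) : AI A B := by
  have : A \ B = ∅ := by
    ext x
    constructor
    · rintro ⟨h1, h2⟩
      exact (h2 (h h1)).elim
    · intro h1
      exact h1.elim
  unfold AI
  rw [this]
  exact finite_empty

theorem meagre_sh_fin (u : Finset ℕ) {M : Set Z} (h : IsMeagre M) :
    IsMeagre {x : Z | sh (u : Set ℕ) x ∈ M} := by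
  have h1 := ku (meagre_sh u ∅ (meagre_fst h))
  refine h1.mono ?_
  intro x hx hme
  have h2 : {z : Z | (x, z) ∈ {p : Z × Z | (sh (sd u (tr p.2 ∅)) p.1, p.2) ∈
      {p : Z × Z | p.1 ∈ M}}} = univ := by
    rw [eq_univ_iff_forall]
    intro z
    have h3 : sd u (tr z ∅) = (u : Set ℕ) := by
      ext n
      constructor
      · rintro (⟨h4, _⟩ | ⟨_, h4⟩)
        · exact h4
        · exact h4.2.elim
      · intro h4
        exact Or.inl ⟨h4, fun h5 => h5.2⟩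
    change sh (sd u (tr z ∅)) x ∈ M
    rw [h3]
    exact hx
  rw [h2] at hme
  exact not_isMeagre_of_isOpen isOpen_univ univ_nonempty hme

theorem keylemma (W : ℕ → Set Z) (hW : ∀ m, IsOpen (W m)) {En : ℕ → Set ℕ} (hE : Antitone En)
    {B : Set ℕ} (hB : B.Infinite) (hR : ∀ n k, R W k (En n) B) :
    ∃ B' : Set ℕ, B' ⊆ B ∧ B'.Infinite ∧ ∃ Y : Set ℕ, ∀ n k,
      R W k (En n ∩ Y) B' ∧ R W k (En n ∩ Yᶜ) B' := by
  classical
  by_contra hcon
  push Not at hcon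
  obtain ⟨B1, hB1B, hB1, hM⟩ := claim2' W En hB hR
  have hd : ∀ Y B' : Set ℕ, B' ⊆ B1 → B'.Infinite →
      ∃ B'' : Set ℕ, B'' ⊆ B' ∧ B''.Infinite ∧ (J W En B'' Y ∨ J W En B'' Yᶜ) := by
    intro Y B' hB' hi
    obtain ⟨n, k, hnk⟩ := hcon B' (hB'.trans hB1B) hi Y
    by_cases hR1 : R W k (En n ∩ Y) B'
    · have h0 := hnk hR1
      unfold R at h0
      push Not at h0
      obtain ⟨B'', h1, h2, h3⟩ := h0
      exact ⟨B'', h1, h2, Or.inr ⟨n, k, h3⟩⟩
    · unfold R at hR1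
      push Not at hR1
      obtain ⟨B'', h1, h2, h3⟩ := hR1
      exact ⟨B'', h1, h2, Or.inl ⟨n, k, h3⟩⟩
  have hstar := star W hE hM hd
  have hJall : ∀ Y : Set ℕ, (∃ Bb : Set ℕ, Bb ⊆ B1 ∧ Bb.Infinite ∧ J W En Bb Y) →
      ∀ Ba : Set ℕ, Ba ⊆ B1 → Ba.Infinite → ∃ B' : Set ℕ, B' ⊆ Ba ∧ B'.Infinite ∧
        J W En B' Y := by
    rintro Y ⟨Bb, hBb, hBbi, n, k, hK⟩ Ba hBa hBai
    obtain ⟨B', h1, h2, m, l, h3⟩ := hstar k (En n ∩ Y) Bb Ba hBb hBbi hBa hBai hK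
    refine ⟨B', h1, h2, max m n, l, ?_⟩
    refine K_mono W l h3 ?_
    intro x hx
    exact ⟨hE (le_max_left m n) hx.1, hE (le_max_right m n) hx.1, hx.2⟩
  let Q : Filter ℕ :=
    { sets := {S | ∃ Bb : Set ℕ, Bb ⊆ B1 ∧ Bb.Infinite ∧ J W En Bb Sᶜ}
      univ_sets := ⟨B1, subset_rfl, hB1, 0, 0, by
        have : En 0 ∩ (univ : Set ℕ)ᶜ = ∅ := by simp
        change (En 0 ∩ (univ : Set ℕ)ᶜ).Finite
        rw [this]
        exact finite_empty⟩
      sets_of_superset := by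
        rintro S T ⟨Bb, h1, h2, h3⟩ hST
        exact ⟨Bb, h1, h2, J_hered W h3 (AI_of_subset subset_rfl) (compl_subset_compl.2 hST)⟩
      inter_sets := by
        rintro S T hS ⟨Ba, h1, h2, h3⟩
        obtain ⟨B', h4, h5, h6⟩ := hJall _ hS Ba h1 h2
        refine ⟨B', h4.trans h1, h5, ?_⟩
        rw [compl_inter]
        exact J_union W hE h6 (J_hered W h3 (AI_of_subset h4) subset_rfl) }
  have hQ : ∀ S : Set ℕ, S ∈ Q ↔ ∃ Bb : Set ℕ, Bb ⊆ B1 ∧ Bb.Infinite ∧ J W En Bb Sᶜ :=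
    fun S => Iff.rfl
  have hultra : ∀ Y : Set ℕ, Y ∈ Q ∨ Yᶜ ∈ Q := by
    intro Y
    obtain ⟨B'', h1, h2, h3 | h3⟩ := hd Y B1 subset_rfl hB1
    · right
      rw [hQ, compl_compl]
      exact ⟨B'', h1, h2, h3⟩
    · left
      exact ⟨B'', h1, h2, h3⟩
  have hF : ∀ x : Z, x ∉ {x : Z | ∃ B'' : Set ℕ, B'' ⊆ B1 ∧ B''.Infinite ∧ J W En B'' (F W x)} →
      F W x ∈ Q := by
    intro x hx
    rcases hultra (F W x) with h | h
    · exact h
    · exfalso
      rw [hQ, compl_compl] at h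
      exact hx h
  have hne : Q.NeBot := by
    rw [neBot_iff]
    intro hbot
    have h1 : (∅ : Set ℕ) ∈ Q := by rw [hbot]; exact mem_bot
    obtain ⟨Bb, h2, h3, n, k, h4⟩ := h1
    rw [compl_empty, inter_univ] at h4
    exact hR n k Bb (h2.trans hB1B) h3 h4
  have hDn : ∀ (U : Set Z) (u : Finset ℕ), IsOpen U → U.Nonempty → Dn W U u ∈ Q := by
    intro U u hU hUn
    have h1 := hM.union (meagre_sh_fin u hM)
    have h2 : Dense (_ : Set Z)ᶜ := dense_of_mem_residual h1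
    obtain ⟨x, hxU, hx⟩ := h2.inter_open_nonempty U hU hUn
    have hx1 := hF x (fun h => hx (Or.inl h))
    have hx2 := hF (sh (u : Set ℕ) x) (fun h => hx (Or.inr h))
    filter_upwards [hx1, hx2] with m hm1 hm2
    exact ⟨x, hxU, hm1, hm2⟩
  have hEn : ∀ n, En n ∈ Q := by
    intro n
    refine ⟨B1, subset_rfl, hB1, n, 0, ?_⟩
    change (En n ∩ (En n)ᶜ).Finite
    rw [inter_compl_self]
    exact finite_empty
  have hcof : Q ≤ cofinite := by
    intro S hS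
    refine ⟨B1, subset_rfl, hB1, 0, 0, ?_⟩
    exact (mem_cofinite.1 hS).subset inter_subset_right
  obtain ⟨G, hGc, hQG, hGcof, hGE, hGD⟩ := countgen W hW En Q hDn hEn hcof
  have hGne : G.NeBot := hne.mono hQG
  obtain ⟨Y, hY1, hY2⟩ := no_cg G hGcof
  have hQinG : ∀ S, S ∈ Q → S ∈ G := by
    rintro S ⟨Bb, h2, h3, n, k, h4⟩
    have h5 := nodes W hW G hGD hGcof k _ Bb h3 h4
    filter_upwards [h5, hGE n] with m hm1 hm2
    by_contra hm3
    exact hm1 ⟨hm2, hm3⟩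
  rcases hultra Y with h | h
  · exact hY1 (hQinG _ h)
  · exact hY2 (hQinG _ h)

end Pool.Agent.Helper971.Sq
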