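import Pool.Agent.Helper971.Sq.Defs
import Pool.Agent.Helper971.Sq.P_valid_insert
import Pool.Agent.Helper971.Sq.P_extend

set_option autoImplicit false

namespace Pool.Agent.Helper971.Sq
open Set Filter Topology


theorem kill (W : ℕ → Set Z) {Q : Set ((ℕ → Set Z) × Set ℕ)} (hQc : Q.Countable) :
    ∀ (k : ℕ) (X : Set (Z × Set ℕ)) (B : Set ℕ) (H : Set Z), Valid X B →
      (∀ q ∈ Q, Rob q.1 q.2 X B) → H ⊆ pts X → H.Finite → K W k (E W H) B →
      ∃ (X' : Set (Z × Set ℕ)) (B' : Set ℕ), X ⊆ X' ∧ B' ⊆ B ∧ Valid X' B' ∧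
        (∀ q ∈ Q, Rob q.1 q.2 X' B') ∧ Dead W X' := by
  intro k
  induction k with
  | zero =>
    intro X B H hv hq hH hHf hK
    exact ⟨X, B, subset_rfl, subset_rfl, hv, hq, H, hH, hHf, hK⟩
  | succ k ih =>
    intro X B H hv hq hH hHf hK
    obtain ⟨Bs, hBs, hBsi, hext⟩ := extend hv hQc hq
    obtain ⟨B2, hB2, hB2i, u, hnm⟩ := hK Bs hBs hBsi
    have hm := hext B2 u hB2 hB2i
    have hex : ∃ p ∈ {p : Z × Z | ∃ c : Set ℕ, c ⊆ tr p.2 B2 ∧ c.Infinite ∧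
        K W k (cut W (E W H) p.1 (sd u (tr p.2 B2))) c}, p ∉ {p : Z × Z | ¬ ((tr p.2 B2).Infinite ∧
        (∀ q ∈ X, Tag q.1 p.1) ∧ ∀ q ∈ Q, ∀ c : Set ℕ, c ⊆ tr p.2 B2 →
          Rob q.1 q.2 (insert (p.1, sd u (tr p.2 B2)) X) c)} := by
      by_contra hcon
      refine hnm (hm.mono fun p hp => ?_)
      by_contra hp2
      exact hcon ⟨p, hp, hp2⟩
    obtain ⟨p, ⟨c, hc, hci, hKc⟩, hp⟩ := hex
    obtain ⟨h1, h2, h3⟩ := not_not.1 hp
    have hB2B : B2 ⊆ B := hB2.trans hBs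
    have hv1 := valid_insert hv hB2B hc hci h2 u
    have hE : E W (insert p.1 (insert (sh (sd u (tr p.2 B2)) p.1) H)) =
        cut W (E W H) p.1 (sd u (tr p.2 B2)) := by
      ext m
      constructor
      · intro hm
        exact ⟨fun h hh => hm h (Or.inr (Or.inr hh)), hm _ (Or.inl rfl), hm _ (Or.inr (Or.inl rfl))⟩
      · rintro ⟨hm1, hm2, hm3⟩ h (rfl | rfl | hh)
        · exact hm2
        · exact hm3
        · exact hm1 h hh
    obtain ⟨X', B', e1, e2, e3, e4, e5⟩ := ih (insert (p.1, sd u (tr p.2 B2)) X) c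
      (insert p.1 (insert (sh (sd u (tr p.2 B2)) p.1) H)) hv1 (fun q hqQ => h3 q hqQ c hc)
      (by
        rintro w (rfl | rfl | hw)
        · exact ⟨_, Or.inl rfl, Or.inl rfl⟩
        · exact ⟨_, Or.inl rfl, Or.inr rfl⟩
        · obtain ⟨q, hqX, hqw⟩ := hH hw
          exact ⟨q, Or.inr hqX, hqw⟩)
      ((hHf.insert _).insert _) (by rw [hE]; exact hKc)
    refine ⟨X', B', (Set.subset_insert _ _).trans e1, ?_, e3, e4, e5⟩
    exact e2.trans (hc.trans (fun n hn => hB2B hn.2))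

end Pool.Agent.Helper971.Sq
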