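import Pool.Agent.Helper971.Sq.Defs

set_option autoImplicit false

namespace Pool.Agent.Helper971.Sq
open Set Filter Topology


theorem pseudo {A : Set (Set ℕ)} (hc : A.Countable) (hi : ∀ a ∈ A, a.Infinite)
    (hl : ∀ a ∈ A, ∀ b ∈ A, AI a b ∨ AI b a) : ∃ B : Set ℕ, B.Infinite ∧ ∀ a ∈ A, AI B a := by
  rcases A.eq_empty_or_nonempty with rfl | hne
  · exact ⟨univ, Set.infinite_univ, fun a ha => absurd ha (Set.notMem_empty a)⟩
  obtain ⟨f, rfl⟩ := hc.exists_eq_range hne
  have hmem : ∀ i, f i ∈ range f := fun i => ⟨i, rfl⟩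
  let I : ℕ → Set ℕ := fun n => {x | ∀ i ≤ n, x ∈ f i}
  have h1 : ∀ n, ∃ j, (f j \ I n).Finite := by
    intro n
    induction n with
    | zero =>
      refine ⟨0, ?_⟩
      refine Set.finite_empty.subset ?_
      rintro x ⟨hx, hx2⟩
      apply hx2
      intro i hi
      have : i = 0 := by omega
      rw [this]; exact hx
    | succ n ih =>
      obtain ⟨j, hj⟩ := ih
      rcases hl (f j) (hmem j) (f (n + 1)) (hmem _) with h | h
      · refine ⟨j, (hj.union h).subset ?_⟩
        rintro x ⟨hx, hx2⟩
        by_contra hcon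
        rw [Set.mem_union, not_or] at hcon
        obtain ⟨c1, c2⟩ := hcon
        apply hx2
        intro i hi
        rcases Nat.lt_or_ge n i with h3 | h3
        · have : i = n + 1 := by omega
          rw [this]
          by_contra h4
          exact c2 ⟨hx, h4⟩
        · by_contra h4
          exact c1 ⟨hx, fun h5 => h4 (h5 i h3)⟩
      · refine ⟨n + 1, (hj.union h).subset ?_⟩
        rintro x ⟨hx, hx2⟩
        by_contra hcon
        rw [Set.mem_union, not_or] at hcon
        obtain ⟨c1, c2⟩ := hcon
        apply hx2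
        intro i hi
        rcases Nat.lt_or_ge n i with h3 | h3
        · have : i = n + 1 := by omega
          rw [this]
          exact hx
        · by_contra h4
          have h6 : x ∈ f j := by
            by_contra h7
            exact c2 ⟨hx, h7⟩
          exact c1 ⟨h6, fun h5 => h4 (h5 i h3)⟩
  have h2 : ∀ n, (I n).Infinite := by
    intro n hfin
    obtain ⟨j, hj⟩ := h1 n
    apply hi (f j) (hmem j)
    refine (hj.union hfin).subset ?_
    intro x hx
    by_cases h : x ∈ I n
    · exact Or.inr h
    · exact Or.inl ⟨hx, h⟩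
  obtain ⟨φ, hφ, hφ2⟩ := Filter.extraction_forall_of_frequently (P := fun n k => k ∈ I n)
    (fun n => Nat.frequently_atTop_iff_infinite.2 (h2 n))
  refine ⟨range φ, Set.infinite_range_of_injective hφ.injective, ?_⟩
  rintro a ⟨i, rfl⟩
  refine ((Set.finite_lt_nat i).image φ).subset ?_
  rintro x ⟨⟨n, rfl⟩, hx⟩
  refine ⟨n, ?_, rfl⟩
  by_contra hcon
  have hcon' : i ≤ n := not_lt.1 hcon
  exact hx (hφ2 n i hcon')

end Pool.Agent.Helper971.Sq
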