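import Pool.Agent.Helper971.Sq.Defs
import Pool.Agent.Helper971.Sq.P_R_hered
import Pool.Agent.Helper971.Sq.P_pseudo

set_option autoImplicit false

namespace Pool.Agent.Helper971.Sq
open Set Filter Topology


theorem AI_refl' (A : Set ℕ) : AI A A := by
  unfold AI
  rw [Set.sdiff_self]
  exact Set.finite_empty

theorem AI_trans' {A B C : Set ℕ} (h1 : AI A B) (h2 : AI B C) : AI A C := by
  unfold AI at *
  refine (h1.union h2).subset ?_
  intro x hx
  by_cases hB : x ∈ B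
  · exact Or.inr ⟨hB, hx.2⟩
  · exact Or.inl ⟨hx.1, hB⟩

theorem pts_mono' {X Y : Set (Z × Set ℕ)} (h : X ⊆ Y) : pts X ⊆ pts Y := by
  rintro w ⟨p, hp, hw⟩
  exact ⟨p, h hp, hw⟩

theorem limit {I : Type} [LinearOrder I] {C : I → Set ℕ} {O : I → ℕ → Set Z} {U : I → Set Z}
    {i : I} (hI : (Iio i).Countable) (prev : (j : I) → j < i → D)
    (hprev : ∀ (j : I) (h : j < i), Req C O U j (fun k hk => prev k (hk.trans h)) (prev j h)) :
    ∃ (X : Set (Z × Set ℕ)) (B : Set ℕ), Valid X B ∧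
      (∀ (j : I) (h : j < i), (prev j h).1 ⊆ X ∧ AI B (prev j h).2.1) ∧
      ∀ (j : I) (h : j < i), OK (O j) (prev j h).2.2 X B := by
  classical
  have hval : ∀ (j : I) (h : j < i), Valid (prev j h).1 (prev j h).2.1 := fun j h => (hprev j h).1
  have hmono : ∀ (j k : I) (hj : j < i) (hk : k < i), j ≤ k →
      (prev j hj).1 ⊆ (prev k hk).1 ∧ AI (prev k hk).2.1 (prev j hj).2.1 := by
    intro j k hj hk hjk
    rcases hjk.lt_or_eq with h | h
    · exact (hprev k hk).2.1 j h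
    · subst h
      exact ⟨le_rfl, AI_refl' _⟩
  have hOK : ∀ (j k : I) (hj : j < i) (hk : k < i), j ≤ k →
      OK (O j) (prev j hj).2.2 (prev k hk).1 (prev k hk).2.1 := by
    intro j k hj hk hjk
    rcases hjk.lt_or_eq with h | h
    · exact (hprev k hk).2.2.2.1 j h
    · subst h
      exact (hprev j hk).2.2.1
  have hcI : Countable (Iio i) := hI.to_subtype
  -- the union
  obtain ⟨X, hXdef⟩ : ∃ X : Set (Z × Set ℕ), X = ⋃ j : Iio i, (prev j.1 j.2).1 := ⟨_, rfl⟩
  have hX : ∀ p, p ∈ X ↔ ∃ (j : I) (h : j < i), p ∈ (prev j h).1 := by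
    intro p
    rw [hXdef, Set.mem_iUnion]
    constructor
    · rintro ⟨j, hj⟩
      exact ⟨j.1, j.2, hj⟩
    · rintro ⟨j, h, hj⟩
      exact ⟨⟨j, h⟩, hj⟩
  have hsub : ∀ (j : I) (h : j < i), (prev j h).1 ⊆ X := fun j h p hp => (hX p).2 ⟨j, h, hp⟩
  obtain ⟨B, hBinf, hB⟩ := pseudo (A := Set.range (fun j : Iio i => (prev j.1 j.2).2.1))
    (Set.countable_range _) (by
      rintro a ⟨j, rfl⟩
      exact (hval j.1 j.2).inf) (by
      rintro a ⟨j, rfl⟩ b ⟨k, rfl⟩
      rcases le_total j.1 k.1 with h | h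
      · exact Or.inr (hmono j.1 k.1 j.2 k.2 h).2
      · exact Or.inl (hmono k.1 j.1 k.2 j.2 h).2)
  have hB' : ∀ (j : I) (h : j < i), AI B (prev j h).2.1 := fun j h => hB _ ⟨⟨j, h⟩, rfl⟩
  -- two points in a common stage
  have hcomm : ∀ p ∈ X, ∀ q ∈ X, ∃ (k : I) (hk : k < i), p ∈ (prev k hk).1 ∧ q ∈ (prev k hk).1 := by
    intro p hp q hq
    obtain ⟨j, hj, hpj⟩ := (hX p).1 hp
    obtain ⟨k, hk, hqk⟩ := (hX q).1 hq
    rcases le_total j k with h | h
    · exact ⟨k, hk, (hmono j k hj hk h).1 hpj, hqk⟩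
    · exact ⟨j, hj, hpj, (hmono k j hk hj h).1 hqk⟩
  have hValid : Valid X B := by
    refine ⟨?_, hBinf, ?_, ?_, ?_⟩
    · rw [hXdef]
      exact Set.countable_iUnion fun j => (hval j.1 j.2).cnt
    · intro p hp
      obtain ⟨j, hj, hpj⟩ := (hX p).1 hp
      exact AI_trans' (hB' j hj) ((hval j hj).below p hpj)
    · intro p hp q hq
      obtain ⟨k, hk, h1, h2⟩ := hcomm p hp q hq
      exact (hval k hk).lin p h1 q h2
    · intro p hp q hq hne
      obtain ⟨k, hk, h1, h2⟩ := hcomm p hp q hq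
      exact (hval k hk).tag p h1 q h2 hne
  -- finite sets of points
  have hfin : ∀ (j : I) (_ : j < i) (H : Set Z), H.Finite → H ⊆ pts X →
      ∃ (k : I) (hk : k < i), j ≤ k ∧ H ⊆ pts (prev k hk).1 := by
    intro j hj H hH
    induction H, hH using Set.Finite.induction_on with
    | empty => intro _; exact ⟨j, hj, le_rfl, Set.empty_subset _⟩
    | @insert a s has hs ih =>
      intro hsub'
      obtain ⟨k, hk, hjk, hks⟩ := ih (fun x hx => hsub' (Set.mem_insert_of_mem a hx))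
      obtain ⟨p, hp, hw⟩ := hsub' (Set.mem_insert a s)
      obtain ⟨l, hl, hpl⟩ := (hX p).1 hp
      rcases le_total k l with h | h
      · refine ⟨l, hl, hjk.trans h, ?_⟩
        intro x hx
        rcases Set.mem_insert_iff.mp hx with rfl | hx
        · exact ⟨p, hpl, hw⟩
        · exact pts_mono' (hmono k l hk hl h).1 (hks hx)
      · refine ⟨k, hk, hjk, ?_⟩
        intro x hx
        rcases Set.mem_insert_iff.mp hx with rfl | hx
        · exact ⟨p, (hmono l k hl hk h).1 hpl, hw⟩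
        · exact hks hx
  refine ⟨X, B, hValid, fun j h => ⟨hsub j h, hB' j h⟩, ?_⟩
  intro j hj
  by_cases hdead : ∃ (k : I) (hk : k < i), j ≤ k ∧ Dead (O j) (prev k hk).1
  · obtain ⟨k, hk, _, H, hH1, hH2, hH3⟩ := hdead
    exact Or.inl ⟨H, hH1.trans (pts_mono' (hsub k hk)), hH2, hH3⟩
  · have hrob : ∀ (k : I) (hk : k < i), j ≤ k →
        Rob (O j) (prev j hj).2.2 (prev k hk).1 (prev k hk).2.1 ∧
        Rob (O j) (prev j hj).2.2ᶜ (prev k hk).1 (prev k hk).2.1 := by
      intro k hk hjk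
      rcases hOK j k hj hk hjk with h | h
      · exact absurd ⟨k, hk, hjk, h⟩ hdead
      · exact h
    right
    constructor
    · intro H hH1 hH2 n
      obtain ⟨k, hk, hjk, hHk⟩ := hfin j hj H hH2 hH1
      exact R_hered (O j) n ((hrob k hk hjk).1 H hHk hH2 n) (hB' k hk)
    · intro H hH1 hH2 n
      obtain ⟨k, hk, hjk, hHk⟩ := hfin j hj H hH2 hH1
      exact R_hered (O j) n ((hrob k hk hjk).2 H hHk hH2 n) (hB' k hk)

end Pool.Agent.Helper971.Sq
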