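import Pool.Agent.Helper971.Sq.Defs

set_option autoImplicit false

namespace Pool.Agent.Helper971.Sq
open Set Filter Topology

/-- the set of indices attached to two points -/
def ff (a b : Z) : Set ℕ :=
  {n | a 0 = b 0 ∨ (∃ m, m ≤ n ∧ a (2 * m + 1) ≠ b (2 * m + 1)) ∨ a (2 * n + 2) ≠ b (2 * n + 2)}

theorem ff_comm (a b : Z) : ff a b = ff b a := by
  ext n
  simp only [ff, Set.mem_ofPred_eq, eq_comm (a := a 0), ne_comm (a := a _)]

theorem sh_odd (c : Set ℕ) (x : Z) (n : ℕ) : sh c x (2 * n + 1) = x (2 * n + 1) := by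
  unfold sh
  rw [if_neg]
  rintro (h | ⟨m, -, h⟩) <;> omega

theorem sh_zero (c : Set ℕ) (x : Z) : sh c x 0 = !(x 0) := by
  unfold sh
  rw [if_pos]
  exact Or.inl rfl

theorem sh_even_mem {c : Set ℕ} (x : Z) {n : ℕ} (hn : n ∈ c) :
    sh c x (2 * n + 2) = !(x (2 * n + 2)) := by
  unfold sh
  rw [if_pos]
  exact Or.inr ⟨n, hn, rfl⟩

theorem sh_even_notMem {c : Set ℕ} (x : Z) {n : ℕ} (hn : n ∉ c) :
    sh c x (2 * n + 2) = x (2 * n + 2) := by
  unfold sh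
  rw [if_neg]
  rintro (h | ⟨m, hm, h⟩)
  · omega
  · obtain rfl : n = m := by omega
    exact hn hm

theorem ff_self (a : Z) : ff a a = univ := by
  ext n
  simp [ff]

theorem ff_sh (c : Set ℕ) (x : Z) : ff x (sh c x) = c := by
  ext n
  constructor
  · rintro (h | ⟨m, -, h⟩ | h)
    · rw [sh_zero] at h
      cases h0 : x 0 <;> rw [h0] at h <;> simp at h
    · exact absurd (sh_odd c x m).symm h
    · by_contra hn
      exact h (sh_even_notMem x hn).symm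
  · intro hn
    refine Or.inr (Or.inr ?_)
    rw [sh_even_mem x hn]
    cases x (2 * n + 2) <;> simp

theorem ff_cases {X : Set (Z × Set ℕ)}
    (htag : ∀ p ∈ X, ∀ q ∈ X, p ≠ q → Tag p.1 q.1) {a b : Z} (ha : a ∈ pts X) (hb : b ∈ pts X) :
    (∃ p ∈ X, ff a b = p.2) ∨ (ff a b)ᶜ.Finite := by
  obtain ⟨p, hp, hpa⟩ := ha
  obtain ⟨q, hq, hqb⟩ := hb
  by_cases hpq : p = q
  · subst hpq
    rcases hpa with rfl | rfl <;> rcases hqb with rfl | rfl
    · right; rw [ff_self]; simp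
    · left; exact ⟨p, hp, ff_sh _ _⟩
    · left; exact ⟨p, hp, by rw [ff_comm]; exact ff_sh _ _⟩
    · right; rw [ff_self]; simp
  · right
    obtain ⟨n, hn⟩ := htag p hp q hq hpq
    have h1 : a (2 * n + 1) = p.1 (2 * n + 1) := by
      rcases hpa with rfl | rfl
      · rfl
      · exact sh_odd _ _ _
    have h2 : b (2 * n + 1) = q.1 (2 * n + 1) := by
      rcases hqb with rfl | rfl
      · rfl
      · exact sh_odd _ _ _
    refine (Set.finite_Iio n).subset fun k hk => ?_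
    by_contra hkn
    rw [Set.mem_Iio, not_lt] at hkn
    exact hk (Or.inr (Or.inl ⟨n, hkn, by rw [h1, h2]; exact hn⟩))

/-- the sets of the cover -/
def UU (X : Set (Z × Set ℕ)) (n : ℕ) : Set (Fin 2 → pts X) := {a | n ∈ ff (a 0).1 (a 1).1}

theorem mem_UU {X : Set (Z × Set ℕ)} {n : ℕ} {a : Fin 2 → pts X} :
    a ∈ UU X n ↔ n ∈ ff (a 0).1 (a 1).1 := Iff.rfl

theorem cont_coord (X : Set (Z × Set ℕ)) (i : Fin 2) (k : ℕ) :
    Continuous fun a : Fin 2 → pts X => (a i).1 k :=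
  (continuous_apply k).comp (continuous_subtype_val.comp (continuous_apply i))

theorem isOpen_UU (X : Set (Z × Set ℕ)) (n : ℕ) : IsOpen (UU X n) := by
  have hpair : ∀ (k : ℕ) (s : Set (Bool × Bool)),
      IsOpen {a : Fin 2 → pts X | ((a 0).1 k, (a 1).1 k) ∈ s} := fun k s =>
    (isOpen_discrete s).preimage ((cont_coord X 0 k).prodMk (cont_coord X 1 k))
  have e : UU X n = {a : Fin 2 → pts X | ((a 0).1 0, (a 1).1 0) ∈ {x : Bool × Bool | x.1 = x.2}} ∪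
      ((⋃ m : ℕ, ⋃ _ : m ≤ n, {a : Fin 2 → pts X | ((a 0).1 (2 * m + 1), (a 1).1 (2 * m + 1)) ∈
        {x : Bool × Bool | x.1 ≠ x.2}}) ∪
      {a : Fin 2 → pts X | ((a 0).1 (2 * n + 2), (a 1).1 (2 * n + 2)) ∈
        {x : Bool × Bool | x.1 ≠ x.2}}) := by
    ext a
    simp only [UU, ff, Set.mem_ofPred_eq, Set.mem_union, Set.mem_iUnion, exists_prop]
  rw [e]
  exact (hpair _ _).union ((isOpen_iUnion fun m => isOpen_iUnion fun _ => hpair _ _).union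
    (hpair _ _))

theorem UU_inj {X : Set (Z × Set ℕ)}
    (htask : ∀ (C' : Set ℕ) (U' : Set Z), IsOpen U' → U'.Nonempty →
      ∃ p ∈ X, p.1 ∈ U' ∧ (p.2 ⊆ C' ∨ p.2 ⊆ C'ᶜ)) : Function.Injective (UU X) := by
  have hpt : ∀ (w : Z) (L : ℕ), ∃ p ∈ X, ∀ k < L, p.1 k = w k := by
    intro w L
    obtain ⟨p, hp, h, -⟩ := htask univ (Set.pi (Set.Iio L) fun k => {w k})
      (isOpen_set_pi (Set.finite_Iio L) fun _ _ => isOpen_discrete _)
      ⟨w, fun k _ => rfl⟩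
    exact ⟨p, hp, fun k hk => h k hk⟩
  intro n m hnm
  by_contra hne
  obtain ⟨p, hp, h1⟩ := hpt (fun _ => false) (2 * max n m + 4)
  obtain ⟨q, hq, h2⟩ := hpt (fun k => decide (k = 0 ∨ k = 2 * m + 2)) (2 * max n m + 4)
  have hnmax := le_max_left n m
  have hmmax := le_max_right n m
  let a : Fin 2 → pts X := ![⟨p.1, p, hp, Or.inl rfl⟩, ⟨q.1, q, hq, Or.inl rfl⟩]
  have hm : a ∈ UU X m := by
    refine Or.inr (Or.inr ?_)
    show p.1 (2 * m + 2) ≠ q.1 (2 * m + 2)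
    rw [h1 _ (by omega), h2 _ (by omega)]
    simp
  have hn : a ∉ UU X n := by
    rintro (h | ⟨k, hk, h⟩ | h)
    · have h' : p.1 0 = q.1 0 := h
      rw [h1 _ (by omega), h2 _ (by omega)] at h'
      simp at h'
    · have h' : p.1 (2 * k + 1) ≠ q.1 (2 * k + 1) := h
      rw [h1 _ (by omega), h2 _ (by omega)] at h'
      apply h'
      symm
      rw [decide_eq_false_iff_not]
      omega
    · have h' : p.1 (2 * n + 2) ≠ q.1 (2 * n + 2) := h
      rw [h1 _ (by omega), h2 _ (by omega)] at h'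
      apply h'
      symm
      rw [decide_eq_false_iff_not]
      omega
  exact hn (hnm ▸ hm)

theorem UU_tau {X : Set (Z × Set ℕ)} (hi : ∀ p ∈ X, p.2.Infinite)
    (hlin : ∀ p ∈ X, ∀ q ∈ X, AI p.2 q.2 ∨ AI q.2 p.2)
    (htag : ∀ p ∈ X, ∀ q ∈ X, p ≠ q → Tag p.1 q.1)
    (htask : ∀ (C' : Set ℕ) (U' : Set Z), IsOpen U' → U'.Nonempty →
      ∃ p ∈ X, p.1 ∈ U' ∧ (p.2 ⊆ C' ∨ p.2 ⊆ C'ᶜ)) :
    Set.range (UU X) ∈ TauOf (OpenFam (Fin 2 → pts X)) := by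
  have hinj := UU_inj htask
  have hcases : ∀ a : Fin 2 → pts X,
      (∃ p ∈ X, ff (a 0).1 (a 1).1 = p.2) ∨ (ff (a 0).1 (a 1).1)ᶜ.Finite :=
    fun a => ff_cases htag (a 0).2 (a 1).2
  have hinf : ∀ a : Fin 2 → pts X, (ff (a 0).1 (a 1).1).Infinite := by
    intro a
    rcases hcases a with ⟨p, hp, h⟩ | h
    · rw [h]; exact hi p hp
    · have := h.infinite_compl
      rwa [compl_compl] at this
  have hcomp : ∀ a b : Fin 2 → pts X, AI (ff (a 0).1 (a 1).1) (ff (b 0).1 (b 1).1) ∨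
      AI (ff (b 0).1 (b 1).1) (ff (a 0).1 (a 1).1) := by
    intro a b
    rcases hcases a with ⟨p, hp, h⟩ | h
    · rcases hcases b with ⟨q, hq, h'⟩ | h'
      · rw [h, h']; exact hlin p hp q hq
      · left; exact h'.subset fun n hn => hn.2
    · right; exact h.subset fun n hn => hn.2
  refine ⟨?_, ⟨?_, ?_⟩, ?_, ?_⟩
  · rintro _ ⟨n, rfl⟩
    exact isOpen_UU X n
  · rw [Set.eq_univ_iff_forall]
    intro a
    obtain ⟨n, hn⟩ := (hinf a).nonempty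
    exact ⟨UU X n, ⟨n, rfl⟩, hn⟩
  · rintro ⟨n, hn⟩
    obtain ⟨p, hp, -, h⟩ := htask {n} univ isOpen_univ univ_nonempty
    have h' : p.2 ⊆ {n}ᶜ := by
      rcases h with h | h
      · exact absurd ((Set.finite_singleton n).subset h) (hi p hp)
      · exact h
    have ha : (![⟨p.1, p, hp, Or.inl rfl⟩, ⟨sh p.2 p.1, p, hp, Or.inr rfl⟩] : Fin 2 → pts X) ∈
        UU X n := by rw [hn]; trivial
    have ha' : n ∈ ff p.1 (sh p.2 p.1) := ha
    rw [ff_sh] at ha'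
    exact h' ha' rfl
  · intro a
    refine ((hinf a).image hinj.injOn).mono ?_
    rintro _ ⟨n, hn, rfl⟩
    exact ⟨⟨n, rfl⟩, hn⟩
  · intro a b
    have hsub : ∀ a b : Fin 2 → pts X, AI (ff (a 0).1 (a 1).1) (ff (b 0).1 (b 1).1) →
        {u | u ∈ Set.range (UU X) ∧ a ∈ u ∧ b ∉ u}.Finite := by
      intro a b h
      refine (Set.Finite.image (UU X) h).subset ?_
      rintro _ ⟨⟨n, rfl⟩, h1, h2⟩
      exact ⟨n, ⟨h1, h2⟩, rfl⟩
    rcases hcomp a b with h | h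
    · left; exact hsub a b h
    · right; exact hsub b a h

theorem not_split {X : Set (Z × Set ℕ)} (hi : ∀ p ∈ X, p.2.Infinite)
    (hlin : ∀ p ∈ X, ∀ q ∈ X, AI p.2 q.2 ∨ AI q.2 p.2)
    (htag : ∀ p ∈ X, ∀ q ∈ X, p ≠ q → Tag p.1 q.1)
    (htask : ∀ (C' : Set ℕ) (U' : Set Z), IsOpen U' → U'.Nonempty →
      ∃ p ∈ X, p.1 ∈ U' ∧ (p.2 ⊆ C' ∨ p.2 ⊆ C'ᶜ)) :
    ¬ SplitP (TauOf (OpenFam (Fin 2 → pts X))) (TauOf (OpenFam (Fin 2 → pts X))) := by
  intro hS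
  obtain ⟨V, W, hVW, hdis, ⟨V', hV', hVt⟩, W', hW', hWt⟩ := hS _ (UU_tau hi hlin htag htask)
  obtain ⟨p, hp, -, h⟩ := htask {n | UU X n ∈ V} univ isOpen_univ univ_nonempty
  let a : Fin 2 → pts X := ![⟨p.1, p, hp, Or.inl rfl⟩, ⟨sh p.2 p.1, p, hp, Or.inr rfl⟩]
  have hmem : ∀ n, a ∈ UU X n → n ∈ p.2 := by
    intro n hn
    have hn' : n ∈ ff p.1 (sh p.2 p.1) := hn
    rwa [ff_sh] at hn'
  obtain ⟨u, hu, hau⟩ := (hVt.2.2.1 a).nonempty
  obtain ⟨w, hw, haw⟩ := (hWt.2.2.1 a).nonempty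
  have huV : u ∈ V := hV' hu
  have hwW : w ∈ W := hW' hw
  obtain ⟨n, rfl⟩ : u ∈ Set.range (UU X) := hVW ▸ Or.inl huV
  obtain ⟨m, rfl⟩ : w ∈ Set.range (UU X) := hVW ▸ Or.inr hwW
  rcases h with h | h
  · have h1 : UU X m ∈ V := h (hmem m haw)
    exact Set.disjoint_left.mp hdis h1 hwW
  · exact h (hmem n hau) huV

end Pool.Agent.Helper971.Sq
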