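import Pool.Agent.Helper971.Sq.Defs
import Pool.Agent.Helper971.Sq.P_R_mono
import Pool.Agent.Helper971.Sq.P_R_hered
import Pool.Agent.Helper971.Sq.P_keylemma
import Pool.Agent.Helper971.Sq.P_kill

set_option autoImplicit false

namespace Pool.Agent.Helper971.Sq
open Set Filter Topology


theorem task_exh {α : Type*} (P : Set α) (hP : P.Countable) :
    ∃ H : ℕ → Set α, Monotone H ∧ (∀ n, (H n).Finite ∧ H n ⊆ P) ∧
      ∀ G : Set α, G ⊆ P → G.Finite → ∃ n, G ⊆ H n := by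
  rcases P.eq_empty_or_nonempty with h0 | hne
  · refine ⟨fun _ => ∅, fun _ _ _ => le_rfl, fun _ => ⟨Set.finite_empty, Set.empty_subset _⟩, ?_⟩
    intro G hG _
    exact ⟨0, by rw [h0] at hG; exact hG⟩
  · obtain ⟨f, hf⟩ := hP.exists_eq_range hne
    refine ⟨fun n => f '' Set.Iio n, ?_, ?_, ?_⟩
    · intro m n hmn
      exact Set.image_mono (Set.Iio_subset_Iio hmn)
    · intro n
      refine ⟨(Set.finite_Iio n).image f, ?_⟩
      rw [hf]
      rintro _ ⟨i, _, rfl⟩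
      exact ⟨i, rfl⟩
    · intro G hG hGf
      have h1 : ∀ x : G, ∃ i, f i = x.1 := by
        intro x
        have h2 := hG x.2
        rw [hf] at h2
        exact h2
      choose g hg using h1
      haveI : Finite G := hGf
      obtain ⟨N, hN⟩ := (Set.finite_range g).bddAbove
      refine ⟨N + 1, fun x hx => ⟨g ⟨x, hx⟩, ?_, hg ⟨x, hx⟩⟩⟩
      have h3 : g ⟨x, hx⟩ ≤ N := hN ⟨⟨x, hx⟩, rfl⟩
      exact Nat.lt_succ_of_le h3

theorem task_AI_of_subset {B' B : Set ℕ} (h : B' ⊆ B) : AI B' B := by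
  unfold AI
  rw [Set.diff_eq_empty.2 h]
  exact Set.finite_empty

theorem task_valid {X : Set (Z × Set ℕ)} {B B' : Set ℕ} (h : Valid X B) (hB : B' ⊆ B)
    (hi : B'.Infinite) : Valid X B' where
  cnt := h.cnt
  inf := hi
  below := fun p hp => (h.below p hp).subset (Set.diff_subset_diff_left hB)
  lin := h.lin
  tag := h.tag

theorem task_rob {W : ℕ → Set Z} {Y : Set ℕ} {X : Set (Z × Set ℕ)} {B B' : Set ℕ}
    (h : Rob W Y X B) (hB : B' ⊆ B) : Rob W Y X B' := fun H hH hf k =>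
  R_hered W k (h H hH hf k) (task_AI_of_subset hB)

theorem task_E_anti (W : ℕ → Set Z) {H H' : Set Z} (h : H ⊆ H') : E W H' ⊆ E W H :=
  fun _ hm x hx => hm x (h hx)

theorem task_pts_countable {X : Set (Z × Set ℕ)} (h : X.Countable) : (pts X).Countable := by
  have h1 : pts X ⊆ (Prod.fst '' X) ∪ ((fun p : Z × Set ℕ => sh p.2 p.1) '' X) := by
    rintro w ⟨p, hp, hw | hw⟩
    · exact Or.inl ⟨p, hp, hw.symm⟩
    · exact Or.inr ⟨p, hp, hw.symm⟩
  exact ((h.image _).union (h.image _)).mono h1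

theorem task (W : ℕ → Set Z) (hW : ∀ m, IsOpen (W m)) {X : Set (Z × Set ℕ)} {B : Set ℕ}
    (h : Valid X B) {Q : Set ((ℕ → Set Z) × Set ℕ)} (hQc : Q.Countable)
    (hQ : ∀ q ∈ Q, Rob q.1 q.2 X B) :
    ∃ (X' : Set (Z × Set ℕ)) (B' Y : Set ℕ), X ⊆ X' ∧ B' ⊆ B ∧ Valid X' B' ∧
      (∀ q ∈ Q, Rob q.1 q.2 X' B') ∧ OK W Y X' B' := by
  by_cases hc : ∃ H : Set Z, H ⊆ pts X ∧ H.Finite ∧ ∃ k, ¬ R W k (E W H) B
  · obtain ⟨H, hH, hHf, k, hk⟩ := hc
    unfold R at hk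
    push Not at hk
    obtain ⟨B1, hB1, hB1i, hK⟩ := hk
    obtain ⟨X', B', h1, h2, h3, h4, h5⟩ := kill W hQc k X B1 H (task_valid h hB1 hB1i)
      (fun q hq => task_rob (hQ q hq) hB1) hH hHf hK
    exact ⟨X', B', Set.univ, h1, h2.trans hB1, h3, h4, Or.inl h5⟩
  · push Not at hc
    obtain ⟨H, hmono, hfin, hcof⟩ := task_exh (pts X) (task_pts_countable h.cnt)
    have hanti : Antitone (fun n => E W (H n)) := fun m n hmn => task_E_anti W (hmono hmn)
    obtain ⟨B', hB', hB'i, Y, hY⟩ := keylemma W hW hanti h.inf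
      (fun n k => hc (H n) (hfin n).2 (hfin n).1 k)
    refine ⟨X, B', Y, le_rfl, hB', task_valid h hB' hB'i, fun q hq => task_rob (hQ q hq) hB',
      Or.inr ⟨?_, ?_⟩⟩
    · intro G hG hGf k
      obtain ⟨n, hn⟩ := hcof G hG hGf
      exact R_mono W k (hY n k).1 (Set.inter_subset_inter_left _ (task_E_anti W hn))
    · intro G hG hGf k
      obtain ⟨n, hn⟩ := hcof G hG hGf
      exact R_mono W k (hY n k).2 (Set.inter_subset_inter_left _ (task_E_anti W hn))

end Pool.Agent.Helper971.Sq
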