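import Pool.Agent.Helper971.Sq.Defs
import Pool.Agent.Helper971.Sq.P_addpair
import Pool.Agent.Helper971.Sq.P_task
import Pool.Agent.Helper971.Sq.P_limit

set_option autoImplicit false

namespace Pool.Agent.Helper971.Sq
open Set Filter Topology


theorem stage_pts_mono {X X' : Set (Z × Set ℕ)} (h : X ⊆ X') : pts X ⊆ pts X' := by
  rintro w ⟨p, hp, hw⟩
  exact ⟨p, h hp, hw⟩

theorem stage_dead_mono {W : ℕ → Set Z} {X X' : Set (Z × Set ℕ)} (h : X ⊆ X') (hd : Dead W X) :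
    Dead W X' := by
  obtain ⟨H, h1, h2, h3⟩ := hd
  exact ⟨H, h1.trans (stage_pts_mono h), h2, h3⟩

theorem stage {I : Type} [LinearOrder I] {C : I → Set ℕ} {O : I → ℕ → Set Z} {U : I → Set Z}
    {i : I} (hI : (Iio i).Countable) (hO : ∀ j n, IsOpen (O j n)) (hU : IsOpen (U i))
    (hUn : (U i).Nonempty) (prev : (j : I) → j < i → D)
    (hprev : ∀ (j : I) (h : j < i), Req C O U j (fun k hk => prev k (hk.trans h)) (prev j h)) :
    ∃ d : D, Req C O U i prev d := by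
  obtain ⟨X0, B0, V0, hsub, hOK⟩ := limit hI prev hprev
  set Q : Set ((ℕ → Set Z) × Set ℕ) := {q | ∃ (j : I) (h : j < i),
    (Rob (O j) (prev j h).2.2 X0 B0 ∧ Rob (O j) (prev j h).2.2ᶜ X0 B0) ∧
      (q = (O j, (prev j h).2.2) ∨ q = (O j, (prev j h).2.2ᶜ))} with hQdef
  have hQc : Q.Countable := by
    have : Countable (Iio i) := hI.to_subtype
    have h1 : (⋃ j : Iio i, ({((O j.1), (prev j.1 j.2).2.2),
        ((O j.1), (prev j.1 j.2).2.2ᶜ)} : Set ((ℕ → Set Z) × Set ℕ))).Countable :=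
      Set.countable_iUnion (fun j => (Set.toFinite _).countable)
    refine h1.mono ?_
    rintro q ⟨j, hj, -, hq⟩
    rw [Set.mem_iUnion]
    refine ⟨⟨j, hj⟩, ?_⟩
    rcases hq with hq | hq
    · left; exact hq
    · right; exact hq
  have hQ : ∀ q ∈ Q, Rob q.1 q.2 X0 B0 := by
    rintro q ⟨j, hj, ⟨h1, h2⟩, hq⟩
    rcases hq with hq | hq
    · rw [hq]; exact h1
    · rw [hq]; exact h2
  obtain ⟨X1, B1, hX1, hB1, V1, hQ1, p, hp, hp1, hp2, hp3⟩ := addpair V0 hQc hQ (C i) hU hUn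
  obtain ⟨X2, B2, Y, hX2, hB2, V2, hQ2, hOK2⟩ := task (O i) (hO i) V1 hQc hQ1
  refine ⟨(X2, B2, Y), V2, ?_, hOK2, ?_, p, hX2 hp, hp1, hp2, hp3⟩
  · intro j hj
    obtain ⟨h1, h2⟩ := hsub j hj
    refine ⟨h1.trans (hX1.trans hX2), ?_⟩
    unfold AI at h2 ⊢
    exact h2.subset (Set.sdiff_subset_sdiff_left (hB2.trans hB1))
  · intro j hj
    rcases hOK j hj with h1 | ⟨h1, h2⟩
    · left
      exact stage_dead_mono (hX1.trans hX2) h1
    · right
      exact ⟨hQ2 _ ⟨j, hj, ⟨h1, h2⟩, Or.inl rfl⟩, hQ2 _ ⟨j, hj, ⟨h1, h2⟩, Or.inr rfl⟩⟩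

end Pool.Agent.Helper971.Sq
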