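import Pool.Agent.Helper971.Sq.Defs
import Pool.Agent.Helper971.Sq.P_stage

set_option autoImplicit false

namespace Pool.Agent.Helper971.Sq
open Set Filter Topology


open Classical in
/-- the recursive step -/
noncomputable def towStep {I : Type} [LinearOrder I] (C : I → Set ℕ) (O : I → ℕ → Set Z)
    (U : I → Set Z) (i : I) (prev : (j : I) → j < i → D) : D :=
  if h : ∃ d, Req C O U i prev d then h.choose else (∅, ∅, ∅)

theorem towStep_spec {I : Type} [LinearOrder I] (C : I → Set ℕ) (O : I → ℕ → Set Z)
    (U : I → Set Z) (i : I) (prev : (j : I) → j < i → D) (h : ∃ d, Req C O U i prev d) :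
    Req C O U i prev (towStep C O U i prev) := by
  unfold towStep
  rw [dif_pos h]
  exact h.choose_spec

theorem tower {I : Type} [LinearOrder I] [WellFoundedLT I] (hI : ∀ i : I, (Iio i).Countable)
    (C : I → Set ℕ) (O : I → ℕ → Set Z) (U : I → Set Z) (hO : ∀ j n, IsOpen (O j n))
    (hU : ∀ i, IsOpen (U i)) (hUn : ∀ i, (U i).Nonempty) :
    ∃ d : I → D, ∀ i, Req C O U i (fun j _ => d j) (d i) := by
  have hwf : WellFounded (fun a b : I => a < b) := IsWellFounded.wf
  let dd : I → D := hwf.fix (fun i prev => towStep C O U i prev)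
  have hdd : ∀ i, dd i = towStep C O U i (fun j _ => dd j) := by
    intro i
    exact hwf.fix_eq (fun i prev => towStep C O U i prev) i
  refine ⟨dd, fun i => ?_⟩
  induction i using hwf.induction with
  | _ i ih =>
    rw [hdd i]
    apply towStep_spec
    exact stage (hI i) hO (hU i) (hUn i) (fun j _ => dd j) (fun j hj => ih j hj)

end Pool.Agent.Helper971.Sq
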